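import Mathlib

/-!
Partial fractions with interlacing nodes `u r (2k+1)` and `u r (2j+2)`, where
`u r n = ((1 + r^n)/(1 - r^n))²` (that is `coth² (n e)` for `r = exp (-2e)`).
-/

set_option autoImplicit false

open Finset Polynomial

namespace Pool.Agent.TH41.SC

/-- `coth² (n e)`, `r = exp (-2 e)` -/
noncomputable def u (r : ℝ) (n : ℕ) : ℝ := ((1 + r ^ n) / (1 - r ^ n)) ^ 2

/-- product over the odd exponents -/
noncomputable def O (r : ℝ) (n : ℕ) : ℝ := ∏ j ∈ range n, (1 - r ^ (2 * j + 1))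

/-- product over the even exponents -/
noncomputable def V (r : ℝ) (n : ℕ) : ℝ := ∏ j ∈ range n, (1 - r ^ (2 * j + 2))

/-- the limit weights, up to a constant factor -/
noncomputable def a (r : ℝ) (k : ℕ) : ℝ := r ^ k * (1 + r ^ (2 * k + 1)) / (1 - r ^ (2 * k + 1)) ^ 2

/-- the correction factor, tends to a constant -/
noncomputable def R (r : ℝ) (k m : ℕ) : ℝ :=
  O r (k + m + 1) ^ 2 * O r m * O r (2 * k + m + 1) /
    (V r (k + m) ^ 2 * V r m * V r (2 * k + m + 1))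

/-- the weights -/
noncomputable def W (r : ℝ) (M k : ℕ) : ℝ :=
  (∏ j ∈ range M, (u r (2 * k + 1) - u r (2 * j + 2))) /
    ∏ j ∈ (range (M + 1)).erase k, (u r (2 * k + 1) - u r (2 * j + 1))

section
variable {r : ℝ} (h0 : 0 < r) (h1 : r < 1)
include h0 h1

theorem pow_lt (n : ℕ) (hn : n ≠ 0) : r ^ n < 1 := pow_lt_one₀ h0.le h1 hn

theorem one_sub_pos (n : ℕ) (hn : n ≠ 0) : 0 < 1 - r ^ n := by
  have := pow_lt h0 h1 n hn
  linarith

theorem u_sub (m n : ℕ) (hm : m ≠ 0) (hn : n ≠ 0) :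
    u r m - u r n = 4 * (r ^ m - r ^ n) * (1 - r ^ (m + n)) /
      ((1 - r ^ m) ^ 2 * (1 - r ^ n) ^ 2) := by
  have e1 := (one_sub_pos h0 h1 m hm).ne'
  have e2 := (one_sub_pos h0 h1 n hn).ne'
  unfold u
  rw [pow_add]
  field_simp
  ring

theorem O_pos (n : ℕ) : 0 < O r n := prod_pos fun j _ => one_sub_pos h0 h1 _ (by omega)
theorem V_pos (n : ℕ) : 0 < V r n := prod_pos fun j _ => one_sub_pos h0 h1 _ (by omega)

omit h0 h1 in
theorem O_succ (n : ℕ) : O r (n + 1) = O r n * (1 - r ^ (2 * n + 1)) := prod_range_succ _ _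
omit h0 h1 in
theorem V_succ (n : ℕ) : V r (n + 1) = V r n * (1 - r ^ (2 * n + 2)) := prod_range_succ _ _

omit h0 h1 in
theorem O_reflect (k : ℕ) : ∏ j ∈ range k, (1 - r ^ (2 * (k - j) - 1)) = O r k := by
  unfold O
  rw [← prod_range_reflect]
  refine prod_congr rfl fun j hj => ?_
  rw [mem_range] at hj
  congr 2
  omega

omit h0 h1 in
theorem V_reflect (k : ℕ) : ∏ j ∈ range k, (1 - r ^ (2 * (k - j))) = V r k := by
  unfold V
  rw [← prod_range_reflect]
  refine prod_congr rfl fun j hj => ?_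
  rw [mem_range] at hj
  congr 2
  omega

omit h0 h1 in
theorem O_shift (m k : ℕ) : O r (m + k) = O r m * ∏ j ∈ range k, (1 - r ^ (2 * (m + j) + 1)) := by
  unfold O
  rw [prod_range_add]

omit h0 h1 in
theorem V_shift (m k : ℕ) : V r (m + k) = V r m * ∏ j ∈ range k, (1 - r ^ (2 * (m + j) + 2)) := by
  unfold V
  rw [prod_range_add]

theorem ratio_base (k j : ℕ) (hj : j < k) :
    (u r (2 * k + 1) - u r (2 * j + 2)) / (u r (2 * k + 1) - u r (2 * j + 1)) =
      r * ((1 - r ^ (2 * (k - j) - 1)) * (1 - r ^ (2 * (k + 1 + j) + 1)) * (1 - r ^ (2 * j + 1)) ^ 2) /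
        ((1 - r ^ (2 * (k - j))) * (1 - r ^ (2 * (k + j) + 2)) * (1 - r ^ (2 * j + 2)) ^ 2) := by
  obtain ⟨d, rfl⟩ : ∃ d, k = j + d + 1 := ⟨k - j - 1, by omega⟩
  rw [u_sub h0 h1 _ _ (by omega) (by omega), u_sub h0 h1 _ _ (by omega) (by omega)]
  have e1 : 2 * (j + d + 1 - j) - 1 = 2 * d + 1 := by omega
  have e2 : 2 * (j + d + 1 - j) = 2 * d + 2 := by omega
  rw [e1, e2]
  have n1 := (one_sub_pos h0 h1 (2 * (j + d + 1) + 1) (by omega)).ne'
  have n2 := (one_sub_pos h0 h1 (2 * j + 2) (by omega)).ne'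
  have n3 := (one_sub_pos h0 h1 (2 * j + 1) (by omega)).ne'
  have n4 := (one_sub_pos h0 h1 (2 * d + 2) (by omega)).ne'
  have n5 := (one_sub_pos h0 h1 (2 * (j + d + 1 + j) + 2) (by omega)).ne'
  have f1 : r ^ (2 * (j + d + 1) + 1) - r ^ (2 * j + 2) = - (r ^ (2 * j + 2) * (1 - r ^ (2 * d + 1))) := by
    ring
  have f2 : r ^ (2 * (j + d + 1) + 1) - r ^ (2 * j + 1) = - (r ^ (2 * j + 1) * (1 - r ^ (2 * d + 2))) := by
    ring
  have f3 : 2 * (j + d + 1) + 1 + (2 * j + 2) = 2 * (j + d + 1 + 1 + j) + 1 := by ring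
  have f4 : 2 * (j + d + 1) + 1 + (2 * j + 1) = 2 * (j + d + 1 + j) + 2 := by ring
  rw [f1, f2, f3, f4]
  have n6 : r ^ (2 * j + 1) ≠ 0 := (pow_pos h0 _).ne'
  have f5 : r ^ (2 * j + 2) = r * r ^ (2 * j + 1) := by ring
  have g1 : 4 * -(r ^ (2 * j + 2) * (1 - r ^ (2 * d + 1))) * (1 - r ^ (2 * (j + d + 1 + 1 + j) + 1)) =
    r ^ (2 * j + 1) * (-4 * r * (1 - r ^ (2 * d + 1)) * (1 - r ^ (2 * (j + d + 1 + 1 + j) + 1))) := by
    rw [f5]; ring
  have g2 : 4 * -(r ^ (2 * j + 1) * (1 - r ^ (2 * d + 2))) * (1 - r ^ (2 * (j + d + 1 + j) + 2)) =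
    r ^ (2 * j + 1) * (-4 * (1 - r ^ (2 * d + 2)) * (1 - r ^ (2 * (j + d + 1 + j) + 2))) := by ring
  rw [g1, g2]
  set A := r ^ (2 * j + 1)
  set B := 1 - r ^ (2 * (j + d + 1) + 1)
  set C' := 1 - r ^ (2 * j + 2)
  set D := 1 - A
  set E := 1 - r ^ (2 * d + 2)
  set F := 1 - r ^ (2 * (j + d + 1 + j) + 2)
  set G := 1 - r ^ (2 * d + 1)
  set H := 1 - r ^ (2 * (j + d + 1 + 1 + j) + 1)
  rw [div_div_div_eq]
  rw [div_eq_div_iff (by positivity) (by positivity)]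
  ring

theorem ratio_step (k m : ℕ) :
    (u r (2 * k + 1) - u r (2 * (k + m) + 2)) / (u r (2 * k + 1) - u r (2 * (k + m + 1) + 1)) =
      ((1 - r ^ (2 * m + 1)) * (1 - r ^ (2 * (2 * k + m + 1) + 1)) *
          (1 - r ^ (2 * (k + m + 1) + 1)) ^ 2) /
        ((1 - r ^ (2 * m + 2)) * (1 - r ^ (2 * (2 * k + m + 1) + 2)) *
          (1 - r ^ (2 * (k + m) + 2)) ^ 2) := by
  rw [u_sub h0 h1 _ _ (by omega) (by omega), u_sub h0 h1 _ _ (by omega) (by omega)]
  have n1 := (one_sub_pos h0 h1 (2 * k + 1) (by omega)).ne'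
  have n2 := (one_sub_pos h0 h1 (2 * (k + m) + 2) (by omega)).ne'
  have n3 := (one_sub_pos h0 h1 (2 * (k + m + 1) + 1) (by omega)).ne'
  have n4 := (one_sub_pos h0 h1 (2 * m + 2) (by omega)).ne'
  have n5 := (one_sub_pos h0 h1 (2 * (2 * k + m + 1) + 2) (by omega)).ne'
  have f3 : 2 * k + 1 + (2 * (k + m) + 2) = 2 * (2 * k + m + 1) + 1 := by ring
  have f4 : 2 * k + 1 + (2 * (k + m + 1) + 1) = 2 * (2 * k + m + 1) + 2 := by ring
  have g1 : 4 * (r ^ (2 * k + 1) - r ^ (2 * (k + m) + 2)) =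
    r ^ (2 * k + 1) * (4 * (1 - r ^ (2 * m + 1))) := by ring
  have g2 : 4 * (r ^ (2 * k + 1) - r ^ (2 * (k + m + 1) + 1)) =
    r ^ (2 * k + 1) * (4 * (1 - r ^ (2 * m + 2))) := by ring
  rw [f3, f4, g1, g2]
  have n6 : r ^ (2 * k + 1) ≠ 0 := (pow_pos h0 _).ne'
  set A := r ^ (2 * k + 1)
  set B := 1 - A
  set C' := 1 - r ^ (2 * (k + m) + 2)
  set D := 1 - r ^ (2 * (k + m + 1) + 1)
  set E := 1 - r ^ (2 * m + 2)
  set F := 1 - r ^ (2 * (2 * k + m + 1) + 2)
  set G := 1 - r ^ (2 * m + 1)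
  set H := 1 - r ^ (2 * (2 * k + m + 1) + 1)
  rw [div_div_div_eq]
  rw [div_eq_div_iff (by positivity) (by positivity)]
  ring

theorem W_base (k : ℕ) : W r k k = a r k * R r k 0 := by
  have e1 : (range (k + 1)).erase k = range k := by
    ext x
    simp only [mem_erase, mem_range]
    omega
  unfold W
  rw [e1, ← prod_div_distrib]
  rw [prod_congr rfl fun j hj => ratio_base h0 h1 k j (mem_range.1 hj)]
  rw [prod_div_distrib]
  simp only [prod_mul_distrib, prod_const, card_range, prod_pow]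
  rw [O_reflect, V_reflect]
  have e2 := O_shift (r := r) (k + 1) k
  have e3 := V_shift (r := r) k k
  have e4 : ∏ j ∈ range k, (1 - r ^ (2 * j + 1)) = O r k := rfl
  have e5 : ∏ j ∈ range k, (1 - r ^ (2 * j + 2)) = V r k := rfl
  rw [e4, e5]
  have p1 := (O_pos h0 h1 k).ne'
  have p2 := (V_pos h0 h1 k).ne'
  have p3 := (one_sub_pos h0 h1 (2 * k + 1) (by omega)).ne'
  have p4 : 0 < ∏ j ∈ range k, (1 - r ^ (2 * (k + j) + 2)) :=
    prod_pos fun j _ => one_sub_pos h0 h1 _ (by omega)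
  have p5 := (one_sub_pos h0 h1 (4 * k + 2) (by omega)).ne'
  unfold a R
  have e6 : O r 0 = 1 := rfl
  have e7 : V r 0 = 1 := rfl
  have e8 : O r (2 * k + 0 + 1) = O r k * (1 - r ^ (2 * k + 1)) *
      ∏ j ∈ range k, (1 - r ^ (2 * (k + 1 + j) + 1)) := by
    have h : O r (2 * k + 0 + 1) = O r (k + 1 + k) := by congr 1; ring
    rw [h, e2, O_succ]
  have e9 : V r (2 * k + 0 + 1) = V r k * (∏ j ∈ range k, (1 - r ^ (2 * (k + j) + 2))) *
      (1 - r ^ (4 * k + 2)) := by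
    have h : V r (2 * k + 0 + 1) = V r (k + k + 1) := by congr 1; ring
    rw [h, V_succ, e3]
    congr 3
    ring
  rw [e6, e7, e8, e9, show k + 0 = k from rfl, O_succ]
  have e10 : (1 : ℝ) - r ^ (4 * k + 2) = (1 - r ^ (2 * k + 1)) * (1 + r ^ (2 * k + 1)) := by ring
  have p6 : (1 : ℝ) + r ^ (2 * k + 1) ≠ 0 := by positivity
  rw [e10]
  field_simp

theorem W_formula (k m : ℕ) : W r (k + m) k = a r k * R r k m := by
  induction m with
  | zero => exact W_base h0 h1 k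
  | succ m ih =>
    have e1 : (range (k + (m + 1) + 1)).erase k = insert (k + m + 1) ((range (k + m + 1)).erase k) := by
      ext x
      simp only [mem_erase, mem_range, mem_insert]
      omega
    have e2 : k + m + 1 ∉ (range (k + m + 1)).erase k := by simp
    have e3 : W r (k + (m + 1)) k = W r (k + m) k *
        ((u r (2 * k + 1) - u r (2 * (k + m) + 2)) / (u r (2 * k + 1) - u r (2 * (k + m + 1) + 1))) := by
      unfold W
      rw [e1, prod_insert e2, show k + (m + 1) = k + m + 1 by ring, prod_range_succ]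
      rw [mul_comm (u r (2 * k + 1) - u r (2 * (k + m + 1) + 1)), mul_div_mul_comm]
    rw [e3, ih, ratio_step h0 h1]
    have p1 := (V_pos h0 h1 m).ne'
    have p2 := (V_pos h0 h1 (k + m)).ne'
    have p3 := (V_pos h0 h1 (2 * k + m + 1)).ne'
    have p4 := (one_sub_pos h0 h1 (2 * m + 2) (by omega)).ne'
    have p5 := (one_sub_pos h0 h1 (2 * (2 * k + m + 1) + 2) (by omega)).ne'
    have p6 := (one_sub_pos h0 h1 (2 * (k + m) + 2) (by omega)).ne'
    unfold R
    rw [show k + (m + 1) = k + m + 1 by ring, show 2 * k + (m + 1) + 1 = 2 * k + m + 1 + 1 by ring,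
      O_succ (k + m + 1), O_succ m, O_succ (2 * k + m + 1), V_succ (k + m), V_succ m,
      V_succ (2 * k + m + 1)]
    field_simp

theorem a_pos (k : ℕ) : 0 < a r k := by
  have := one_sub_pos h0 h1 (2 * k + 1) (by omega)
  unfold a
  positivity

theorem R_pos (k m : ℕ) : 0 < R r k m := by
  have := O_pos h0 h1
  have := V_pos h0 h1
  unfold R
  have h2 := O_pos h0 h1 (k + m + 1)
  have h3 := O_pos h0 h1 m
  have h4 := O_pos h0 h1 (2 * k + m + 1)
  have h5 := V_pos h0 h1 (k + m)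
  have h6 := V_pos h0 h1 m
  have h7 := V_pos h0 h1 (2 * k + m + 1)
  positivity

theorem W_pos (M k : ℕ) (hk : k ≤ M) : 0 < W r M k := by
  obtain ⟨m, rfl⟩ := Nat.exists_eq_add_of_le hk
  rw [W_formula h0 h1]
  exact mul_pos (a_pos h0 h1 k) (R_pos h0 h1 k m)

theorem u_inj : Set.InjOn (fun k : ℕ => u r (2 * k + 1)) Set.univ := by
  intro k _ l _ h
  by_contra hne
  have h2 : u r (2 * k + 1) - u r (2 * l + 1) = 0 := sub_eq_zero.2 h
  rw [u_sub h0 h1 _ _ (by omega) (by omega)] at h2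
  have n1 := (one_sub_pos h0 h1 (2 * k + 1) (by omega)).ne'
  have n2 := (one_sub_pos h0 h1 (2 * l + 1) (by omega)).ne'
  have n3 := (one_sub_pos h0 h1 (2 * k + 1 + (2 * l + 1)) (by omega)).ne'
  rw [div_eq_zero_iff] at h2
  rcases h2 with h2 | h2
  · rcases mul_eq_zero.1 h2 with h3 | h3
    · have h4 : r ^ (2 * k + 1) = r ^ (2 * l + 1) := by linarith
      have h5 := (pow_right_strictAnti₀ h0 h1).injective h4
      omega
    · exact n3 h3
  · exact (by positivity : ((1 - r ^ (2 * k + 1)) ^ 2 * (1 - r ^ (2 * l + 1)) ^ 2) ≠ 0) h2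

end

end Pool.Agent.TH41.SC
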