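import Mathlib
import Pool.Agent.TH41.SC.Alg

/-! Partial fraction identities. -/

set_option autoImplicit false

open Finset Polynomial

namespace Pool.Agent.TH41.SC

section
variable {r : ℝ} (h0 : 0 < r) (h1 : r < 1)
include h0 h1

/-- the monic polynomial with roots `u (2j+2)` -/
noncomputable def Q (r : ℝ) (M : ℕ) : ℝ[X] := ∏ j ∈ range M, (X - C (u r (2 * j + 2)))

omit h0 h1 in
theorem Q_monic (M : ℕ) : (Q r M).Monic := monic_prod_of_monic _ _ fun j _ => monic_X_sub_C _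

omit h0 h1 in
theorem Q_natDegree (M : ℕ) : (Q r M).natDegree = M := by
  unfold Q
  rw [natDegree_prod_of_monic _ _ fun j _ => monic_X_sub_C _]
  simp

omit h0 h1 in
theorem Q_eval (M : ℕ) (x : ℝ) : (Q r M).eval x = ∏ j ∈ range M, (x - u r (2 * j + 2)) := by
  unfold Q
  rw [eval_prod]
  simp

theorem W_sum (M : ℕ) : ∑ k ∈ range (M + 1), W r M k = 1 := by
  have hinj : Set.InjOn (fun k : ℕ => u r (2 * k + 1)) (range (M + 1)) :=
    (u_inj h0 h1).mono (Set.subset_univ _)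
  have hdeg : (Q r M).degree < ((range (M + 1)).card : ℕ) := by
    rw [card_range, degree_eq_natDegree (Q_monic M).ne_zero, Q_natDegree]
    exact_mod_cast Nat.lt_succ_self M
  have h := Lagrange.coeff_eq_sum hinj hdeg
  rw [card_range] at h
  have e1 : (Q r M).coeff (M + 1 - 1) = 1 := by
    have := (Q_monic (r := r) M).coeff_natDegree
    rw [Q_natDegree] at this
    simpa using this
  rw [e1] at h
  rw [h]
  refine sum_congr rfl fun k _ => ?_
  unfold W
  rw [Q_eval]

theorem W_pf (M : ℕ) (x : ℝ) (hx : ∀ k ∈ range (M + 1), x ≠ u r (2 * k + 1)) :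
    (∑ k ∈ range (M + 1), W r M k / (u r (2 * k + 1) - x)) *
      ∏ j ∈ range (M + 1), (u r (2 * j + 1) - x) = ∏ j ∈ range M, (u r (2 * j + 2) - x) := by
  have hinj : Set.InjOn (fun k : ℕ => u r (2 * k + 1)) (range (M + 1)) :=
    (u_inj h0 h1).mono (Set.subset_univ _)
  have hdeg : (Q r M).degree < ((range (M + 1)).card : ℕ) := by
    rw [card_range, degree_eq_natDegree (Q_monic M).ne_zero, Q_natDegree]
    exact_mod_cast Nat.lt_succ_self M
  have h := congrArg (eval x) (Lagrange.eq_interpolate hinj hdeg)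
  rw [Lagrange.eval_interpolate_not_at_node _ hx, Lagrange.eval_nodal, Q_eval] at h
  have e1 : ∏ j ∈ range M, (x - u r (2 * j + 2)) = (-1) ^ M * ∏ j ∈ range M, (u r (2 * j + 2) - x) := by
    rw [show ((-1 : ℝ)) ^ M = ∏ _j ∈ range M, (-1 : ℝ) by simp, ← prod_mul_distrib]
    exact prod_congr rfl fun j _ => by ring
  have e2 : ∏ j ∈ range (M + 1), (x - u r (2 * j + 1)) =
      (-1) ^ (M + 1) * ∏ j ∈ range (M + 1), (u r (2 * j + 1) - x) := by
    rw [show ((-1 : ℝ)) ^ (M + 1) = ∏ _j ∈ range (M + 1), (-1 : ℝ) by simp, ← prod_mul_distrib]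
    exact prod_congr rfl fun j _ => by ring
  have e3 : ∑ k ∈ range (M + 1), Lagrange.nodalWeight (range (M + 1)) (fun k : ℕ => u r (2 * k + 1)) k *
      (x - u r (2 * k + 1))⁻¹ * eval (u r (2 * k + 1)) (Q r M) =
      - ∑ k ∈ range (M + 1), W r M k / (u r (2 * k + 1) - x) := by
    rw [← sum_neg_distrib]
    refine sum_congr rfl fun k hk => ?_
    unfold W Lagrange.nodalWeight
    rw [Q_eval, prod_inv_distrib]
    have n1 : x - u r (2 * k + 1) ≠ 0 := sub_ne_zero.2 (hx k hk)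
    have n2 : u r (2 * k + 1) - x ≠ 0 := sub_ne_zero.2 (hx k hk).symm
    have n3 : (x - u r (2 * k + 1))⁻¹ = -(u r (2 * k + 1) - x)⁻¹ := by
      rw [← neg_sub, inv_neg]
    rw [n3]
    ring
  rw [e1, e2, e3] at h
  have n4 : ((-1 : ℝ)) ^ M ≠ 0 := by positivity
  have h5 : (-1 : ℝ) ^ M * ((∑ k ∈ range (M + 1), W r M k / (u r (2 * k + 1) - x)) *
      ∏ j ∈ range (M + 1), (u r (2 * j + 1) - x)) =
      (-1) ^ M * ∏ j ∈ range M, (u r (2 * j + 2) - x) := by
    rw [h]; ring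
  exact mul_left_cancel₀ n4 h5

theorem one_lt_u (n : ℕ) (hn : n ≠ 0) : 1 < u r n := by
  have e1 := one_sub_pos h0 h1 n hn
  have e2 : 0 < r ^ n := pow_pos h0 n
  unfold u
  have : 1 < (1 + r ^ n) / (1 - r ^ n) := by
    rw [one_lt_div e1]; linarith
  nlinarith

end

end Pool.Agent.TH41.SC
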