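import Mathlib
import Pool.Agent.TH41.SC.PF
import Pool.Agent.W48.KS.Final

/-! The exponent of the finite systems is an alternating sum. -/

set_option autoImplicit false

open Finset Polynomial MeasureTheory

namespace Pool.Agent.TH41.SC

open Pool.Agent.W259.GP Pool.Agent.W48.KS

/-- entropy of the geometric distribution with ratio `q` -/
noncomputable def H (q : ℝ) : ℝ := -Real.log (1 - q) - q * Real.log q / (1 - q)

/-- the parameter `c` with `1 + 2 c = u r n` -/
noncomputable def cc (r : ℝ) (n : ℕ) : ℝ := 2 * r ^ n / (1 - r ^ n) ^ 2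

section
variable {r : ℝ} (h0 : 0 < r) (h1 : r < 1)
include h0 h1

theorem cc_pos (n : ℕ) (hn : n ≠ 0) : 0 < cc r n := by
  have e1 := one_sub_pos h0 h1 n hn
  unfold cc
  positivity

theorem cc_u (n : ℕ) (hn : n ≠ 0) : 1 + 2 * cc r n = u r n := by
  have e1 := (one_sub_pos h0 h1 n hn).ne'
  unfold cc u
  field_simp
  ring

theorem sqrt_u (n : ℕ) (hn : n ≠ 0) : √(u r n) = (1 + r ^ n) / (1 - r ^ n) := by
  have e1 := one_sub_pos h0 h1 n hn
  unfold u
  rw [Real.sqrt_sq (by positivity)]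

theorem rr_cc (n : ℕ) (hn : n ≠ 0) : rr (cc r n) = r ^ n := by
  have e1 := one_sub_pos h0 h1 n hn
  unfold rr
  rw [cc_u h0 h1 n hn, sqrt_u h0 h1 n hn]
  have e2 := e1.ne'
  have e3 : (1 + r ^ n) / (1 - r ^ n) + 1 ≠ 0 := by positivity
  rw [div_eq_iff e3]
  field_simp
  ring

theorem gH_cc (n : ℕ) (hn : n ≠ 0) : gH (cc r n) = H (r ^ n) := by
  unfold gH H
  rw [rr_cc h0 h1 n hn]
  ring

theorem mx_eq (M : ℕ) :
    mx (n := M + 1) (fun k : Fin (M + 1) => W r M k) (fun k => cc r (2 * k + 1)) =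
      ∑ k ∈ range (M + 1), H (r ^ (2 * k + 1)) - ∑ j ∈ range M, H (r ^ (2 * j + 2)) := by
  have hg : ∀ n : ℕ, n ≠ 0 → H (r ^ n) = 1 - Real.log 2 + 1 / 2 * ∫ t in (0 : ℝ)..1,
      Real.log (u r n - t ^ 2) := fun n hn => by
    rw [← gH_cc h0 h1 n hn, ← cc_u h0 h1 n hn]
    exact Pool.Agent.W460.KSI.int _ (cc_pos h0 h1 n hn)
  have hu : ∀ n : ℕ, n ≠ 0 → 1 < u r n := fun n hn => one_lt_u h0 h1 n hn
  have key : ∫ t in (0 : ℝ)..1, Real.log (∑ k : Fin (M + 1), W r M k / (1 + 2 * cc r (2 * k + 1) - t ^ 2))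
      = ∑ j ∈ range M, (∫ t in (0 : ℝ)..1, Real.log (u r (2 * j + 2) - t ^ 2))
        - ∑ j ∈ range (M + 1), ∫ t in (0 : ℝ)..1, Real.log (u r (2 * j + 1) - t ^ 2) := by
    rw [← intervalIntegral.integral_finsetSum fun i _ => int_log (hu _ (by omega)),
      ← intervalIntegral.integral_finsetSum fun j _ => int_log (hu _ (by omega)),
      ← intervalIntegral.integral_sub]
    · apply intervalIntegral.integral_congr
      intro t ht
      rw [Set.uIcc_of_le zero_le_one] at ht
      have ht2 : t ^ 2 ≤ 1 := by nlinarith [ht.1, ht.2]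
      have hd := W_pf h0 h1 M (t ^ 2) (fun k _ => by
        have := hu (2 * k + 1) (by omega)
        linarith)
      have hpos : ∀ j : ℕ, j ≠ 0 → 0 < u r j - t ^ 2 := fun j hj => by
        have := hu j hj; linarith
      have hsum : ∑ k : Fin (M + 1), W r M k / (1 + 2 * cc r (2 * k + 1) - t ^ 2) =
          ∑ k ∈ range (M + 1), W r M k / (u r (2 * k + 1) - t ^ 2) := by
        rw [← Fin.sum_univ_eq_sum_range (fun k => W r M k / (u r (2 * k + 1) - t ^ 2))]
        refine sum_congr rfl fun k _ => ?_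
        rw [cc_u h0 h1 _ (by omega)]
      have hR : 0 < ∑ k ∈ range (M + 1), W r M k / (u r (2 * k + 1) - t ^ 2) :=
        sum_pos (fun k hk => div_pos (W_pos h0 h1 M k (Nat.lt_succ_iff.1 (mem_range.1 hk)))
          (hpos _ (by omega))) (nonempty_range_iff.2 (by omega))
      show Real.log (∑ k : Fin (M + 1), W r M k / (1 + 2 * cc r (2 * k + 1) - t ^ 2)) =
        ∑ j ∈ range M, Real.log (u r (2 * j + 2) - t ^ 2)
          - ∑ j ∈ range (M + 1), Real.log (u r (2 * j + 1) - t ^ 2)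
      rw [hsum, ← Real.log_prod fun i _ => (hpos _ (by omega)).ne', ← hd, Real.log_mul hR.ne'
        (prod_pos fun j _ => hpos _ (by omega)).ne', Real.log_prod fun i _ => (hpos _ (by omega)).ne']
      ring
    · have := IntervalIntegrable.sum (range M) fun i _ => int_log (hu (2 * i + 2) (by omega))
      simpa only [Finset.sum_fn] using this
    · have := IntervalIntegrable.sum (range (M + 1)) fun i _ => int_log (hu (2 * i + 1) (by omega))
      simpa only [Finset.sum_fn] using this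
  unfold mx
  rw [key, sum_congr rfl fun k _ => hg (2 * k + 1) (by omega),
    sum_congr (s₁ := range M) rfl fun k _ => hg (2 * k + 2) (by omega)]
  rw [sum_add_distrib, sum_add_distrib, sum_const, sum_const, ← mul_sum, ← mul_sum]
  simp only [card_range, nsmul_eq_mul]
  push_cast
  ring

end

theorem ph_cc {s : ℝ} (h0 : 0 < s) (h1 : s < 1) (n : ℕ) (hn : n ≠ 0) :
    ph (cc (s ^ 2) n) = 2 * s ^ n / (1 + (s ^ 2) ^ n) := by
  have h2 : 0 < s ^ 2 := by positivity
  have h3 : s ^ 2 < 1 := pow_lt_one₀ h0.le h1 (by norm_num)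
  have e1 := one_sub_pos h2 h3 n hn
  unfold ph
  rw [cc_u h2 h3 n hn]
  have e2 : 2 * cc (s ^ 2) n / u (s ^ 2) n = (2 * s ^ n / (1 + (s ^ 2) ^ n)) ^ 2 := by
    unfold cc u
    have e3 := e1.ne'
    have e4 : (1 : ℝ) + (s ^ 2) ^ n ≠ 0 := by positivity
    field_simp
    ring
  rw [e2, Real.sqrt_sq (by positivity)]

end Pool.Agent.TH41.SC
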