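import Mathlib
import Pool.Agent.TH41.SC.Ent

/-! Limits. -/

set_option autoImplicit false

open Finset Filter Topology

namespace Pool.Agent.TH41.SC

section
variable {r : ℝ} (h0 : 0 < r) (h1 : r < 1)
include h0 h1

omit h0 in
theorem exp_le_one_sub {x : ℝ} (hx0 : 0 ≤ x) (hxr : x ≤ r) : Real.exp (-(x / (1 - r))) ≤ 1 - x := by
  have e1 : 0 < 1 - r := by linarith
  have e2 : 0 < 1 - x := by linarith
  have h := Real.one_sub_inv_le_log_of_pos e2
  rw [← Real.le_log_iff_exp_le e2]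
  refine le_trans ?_ h
  have h3 : 1 - (1 - x)⁻¹ = -(x / (1 - x)) := by field_simp; ring
  rw [h3]
  have : x / (1 - x) ≤ x / (1 - r) := by
    gcongr
  linarith

/-- a positive lower bound for the products -/
noncomputable def lo (r : ℝ) : ℝ := Real.exp (-(1 / (1 - r) ^ 2))

omit h0 h1 in
theorem lo_pos : 0 < lo r := Real.exp_pos _

theorem prod_lower (f : ℕ → ℕ) (hf : ∀ j, j + 1 ≤ f j) (n : ℕ) :
    lo r ≤ ∏ j ∈ range n, (1 - r ^ (f j)) := by
  have e1 : 0 < 1 - r := by linarith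
  have h2 : ∀ j, Real.exp (-(r ^ j / (1 - r))) ≤ 1 - r ^ (f j) := fun j => by
    have h3 : r ^ (f j) ≤ r := by
      calc r ^ (f j) ≤ r ^ 1 := pow_le_pow_of_le_one h0.le h1.le (by have := hf j; omega)
        _ = r := pow_one r
    refine le_trans ?_ (exp_le_one_sub h1 (pow_nonneg h0.le _) h3)
    apply Real.exp_le_exp.2
    have : r ^ (f j) ≤ r ^ j := pow_le_pow_of_le_one h0.le h1.le (by have := hf j; omega)
    have : r ^ (f j) / (1 - r) ≤ r ^ j / (1 - r) := by gcongr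
    linarith
  refine le_trans ?_ (prod_le_prod (fun j _ => (Real.exp_pos _).le) fun j _ => h2 j)
  rw [← Real.exp_sum]
  unfold lo
  apply Real.exp_le_exp.2
  rw [sum_neg_distrib, ← sum_div]
  have h4 : ∑ j ∈ range n, r ^ j ≤ 1 / (1 - r) := by
    rw [one_div]
    exact Summable.sum_le_tsum _ (fun _ _ => pow_nonneg h0.le _)
      (summable_geometric_of_lt_one h0.le h1) |>.trans (le_of_eq (tsum_geometric_of_lt_one h0.le h1))
  have h5 : (∑ j ∈ range n, r ^ j) / (1 - r) ≤ 1 / (1 - r) ^ 2 := by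
    calc (∑ j ∈ range n, r ^ j) / (1 - r) ≤ (1 / (1 - r)) / (1 - r) := by gcongr
      _ = 1 / (1 - r) ^ 2 := by rw [div_div, sq]
  linarith

theorem O_lower (n : ℕ) : lo r ≤ O r n := prod_lower h0 h1 (fun j => 2 * j + 1) (fun j => by omega) n
theorem V_lower (n : ℕ) : lo r ≤ V r n := prod_lower h0 h1 (fun j => 2 * j + 2) (fun j => by omega) n

theorem O_anti : Antitone (O r) := antitone_nat_of_succ_le fun n => by
  rw [O_succ]
  have := O_pos h0 h1 n
  have : 0 ≤ r ^ (2 * n + 1) := pow_nonneg h0.le _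
  nlinarith

theorem V_anti : Antitone (V r) := antitone_nat_of_succ_le fun n => by
  rw [V_succ]
  have := V_pos h0 h1 n
  have : 0 ≤ r ^ (2 * n + 2) := pow_nonneg h0.le _
  nlinarith

theorem O_lim : ∃ o, 0 < o ∧ Tendsto (O r) atTop (𝓝 o) := by
  have hb : BddBelow (Set.range (O r)) := ⟨lo r, by rintro _ ⟨n, rfl⟩; exact O_lower h0 h1 n⟩
  exact ⟨_, lt_of_lt_of_le lo_pos (le_ciInf fun n => O_lower h0 h1 n),
    tendsto_atTop_ciInf (O_anti h0 h1) hb⟩

theorem V_lim : ∃ v, 0 < v ∧ Tendsto (V r) atTop (𝓝 v) := by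
  have hb : BddBelow (Set.range (V r)) := ⟨lo r, by rintro _ ⟨n, rfl⟩; exact V_lower h0 h1 n⟩
  exact ⟨_, lt_of_lt_of_le lo_pos (le_ciInf fun n => V_lower h0 h1 n),
    tendsto_atTop_ciInf (V_anti h0 h1) hb⟩

theorem R_le (k m : ℕ) : R r k m ≤ 1 / lo r ^ 4 := by
  have hO : ∀ n, O r n ≤ 1 := fun n => by
    have := O_anti h0 h1 (Nat.zero_le n)
    simpa [O] using this
  have hO0 : ∀ n, 0 ≤ O r n := fun n => (O_pos h0 h1 n).le
  have hV : ∀ n, lo r ≤ V r n := V_lower h0 h1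
  have hl : 0 < lo r := lo_pos
  unfold R
  have n1 : O r (k + m + 1) ^ 2 * O r m * O r (2 * k + m + 1) ≤ 1 := by
    have a1 : O r (k + m + 1) ^ 2 ≤ 1 := pow_le_one₀ (hO0 _) (hO _)
    have a2 : O r (k + m + 1) ^ 2 * O r m ≤ 1 := mul_le_one₀ a1 (hO0 _) (hO _)
    exact mul_le_one₀ a2 (hO0 _) (hO _)
  have n2 : lo r ^ 4 ≤ V r (k + m) ^ 2 * V r m * V r (2 * k + m + 1) := by
    calc lo r ^ 4 = lo r ^ 2 * lo r * lo r := by ring
      _ ≤ _ := by
        have := hV (k + m)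
        have := hV m
        have := hV (2 * k + m + 1)
        have := V_pos h0 h1 (k + m)
        have := V_pos h0 h1 m
        gcongr
  have n3 : 0 < lo r ^ 4 := by positivity
  calc _ ≤ 1 / (V r (k + m) ^ 2 * V r m * V r (2 * k + m + 1)) := by
        gcongr
        exact (lt_of_lt_of_le n3 n2).le
    _ ≤ 1 / lo r ^ 4 := by gcongr

theorem R_lim : ∃ ρ, 0 < ρ ∧ ∀ k, Tendsto (fun m => R r k m) atTop (𝓝 ρ) := by
  obtain ⟨o, ho, hO⟩ := O_lim h0 h1
  obtain ⟨v, hv, hV⟩ := V_lim h0 h1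
  refine ⟨o ^ 2 * o * o / (v ^ 2 * v * v), by positivity, fun k => ?_⟩
  unfold R
  have t1 : Tendsto (fun m : ℕ => k + m + 1) atTop atTop :=
    tendsto_atTop_mono (fun m => by show m ≤ _; omega) tendsto_id
  have t2 : Tendsto (fun m : ℕ => 2 * k + m + 1) atTop atTop :=
    tendsto_atTop_mono (fun m => by show m ≤ _; omega) tendsto_id
  have t3 : Tendsto (fun m : ℕ => k + m) atTop atTop :=
    tendsto_atTop_mono (fun m => by show m ≤ _; omega) tendsto_id
  exact ((((hO.comp t1).pow 2).mul hO).mul (hO.comp t2)).div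
    ((((hV.comp t3).pow 2).mul hV).mul (hV.comp t2)) (by positivity)

theorem a_le (k : ℕ) : a r k ≤ 2 / (1 - r) ^ 2 * r ^ k := by
  have e1 : 0 < 1 - r := by linarith
  have e2 := one_sub_pos h0 h1 (2 * k + 1) (by omega)
  have e3 : r ^ (2 * k + 1) ≤ r := by
    calc r ^ (2 * k + 1) ≤ r ^ 1 := pow_le_pow_of_le_one h0.le h1.le (by omega)
      _ = r := pow_one r
  have e4 : 0 < r ^ k := pow_pos h0 k
  unfold a
  calc r ^ k * (1 + r ^ (2 * k + 1)) / (1 - r ^ (2 * k + 1)) ^ 2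
      ≤ r ^ k * 2 / (1 - r) ^ 2 := by
        gcongr
        linarith
    _ = _ := by ring

theorem a_summable : Summable (a r) :=
  Summable.of_nonneg_of_le (fun k => (a_pos h0 h1 k).le) (a_le h0 h1)
    ((summable_geometric_of_lt_one h0.le h1).mul_left _)

/-- Tannery's theorem for the weights -/
theorem W_lim : ∃ ρ, 0 < ρ ∧ ∀ f : ℕ → ℝ, (∀ k, |f k| ≤ 1) →
    Tendsto (fun M => ∑ k ∈ range (M + 1), W r M k * f k) atTop (𝓝 (ρ * ∑' k, a r k * f k)) := by
  obtain ⟨ρ, hρ, hR⟩ := R_lim h0 h1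
  refine ⟨ρ, hρ, fun f hf => ?_⟩
  set F : ℕ → ℕ → ℝ := fun M k => if k ≤ M then a r k * R r k (M - k) * f k else 0 with hF
  have e1 : (fun M => ∑ k ∈ range (M + 1), W r M k * f k) = fun M => ∑' k, F M k := by
    funext M
    rw [tsum_eq_sum (s := range (M + 1))]
    · refine sum_congr rfl fun k hk => ?_
      have hk' : k ≤ M := Nat.lt_succ_iff.1 (mem_range.1 hk)
      obtain ⟨m, rfl⟩ := Nat.exists_eq_add_of_le hk'
      simp only [hF, hk', if_true]
      rw [W_formula h0 h1, Nat.add_sub_cancel_left]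
    · intro k hk
      have : ¬ k ≤ M := fun h => hk (mem_range.2 (Nat.lt_succ_iff.2 h))
      simp [hF, this]
  rw [e1, ← tsum_mul_left]
  refine tendsto_tsum_of_dominated_convergence (bound := fun k => a r k * (1 / lo r ^ 4)) ?_ ?_ ?_
  · exact (a_summable h0 h1).mul_right _
  · intro k
    have h2 : Tendsto (fun M => a r k * R r k (M - k) * f k) atTop (𝓝 (a r k * ρ * f k)) :=
      (((hR k).comp (tendsto_sub_atTop_nat k)).const_mul (a r k)).mul_const (f k)
    have h3 : a r k * ρ * f k = ρ * (a r k * f k) := by ring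
    rw [← h3]
    refine h2.congr' ?_
    filter_upwards [eventually_ge_atTop k] with M hM
    simp [hF, hM]
  · refine Eventually.of_forall fun M k => ?_
    have ha := a_pos h0 h1 k
    have hlo : 0 < lo r := lo_pos
    by_cases hk : k ≤ M
    · simp only [hF, hk, if_true, norm_mul, Real.norm_eq_abs]
      rw [abs_of_pos ha, abs_of_pos (R_pos h0 h1 _ _)]
      have := R_le h0 h1 k (M - k)
      have hRp := R_pos h0 h1 k (M - k)
      calc a r k * R r k (M - k) * |f k| ≤ a r k * R r k (M - k) * 1 := by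
            gcongr
            exact hf k
        _ ≤ a r k * (1 / lo r ^ 4) := by
            rw [mul_one]; gcongr
    · simp only [hF, hk, if_false, norm_zero]
      positivity

/-- the weighted means converge to the mean with the weights `a` -/
theorem mean_lim (f : ℕ → ℝ) (hf : ∀ k, |f k| ≤ 1) :
    Tendsto (fun M => ∑ k ∈ range (M + 1), W r M k * f k) atTop
      (𝓝 ((∑' k, a r k * f k) / ∑' k, a r k)) := by
  obtain ⟨ρ, hρ, h⟩ := W_lim h0 h1
  have h2 := h (fun _ => 1) (by simp)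
  simp only [mul_one, W_sum h0 h1] at h2
  have h3 := tendsto_nhds_unique h2 tendsto_const_nhds
  have h4 : ∑' k, a r k ≠ 0 := by
    intro h5; rw [h5] at h3; simp at h3
  have h5 : ρ = 1 / ∑' k, a r k := by
    field_simp; exact h3
  have h6 := h f hf
  rw [h5] at h6
  convert h6 using 2
  ring

theorem a_tsum_pos : 0 < ∑' k, a r k := (a_summable h0 h1).tsum_pos (fun k => (a_pos h0 h1 k).le) 0
  (a_pos h0 h1 0)

/-! ### entropies -/

omit h0 h1 in
theorem H_nonneg {q : ℝ} (hq0 : 0 < q) (hq1 : q < 1) : 0 ≤ H q := by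
  unfold H
  have e1 : 0 < 1 - q := by linarith
  have e2 : Real.log (1 - q) ≤ 0 := Real.log_nonpos e1.le (by linarith)
  have e3 : Real.log q ≤ 0 := Real.log_nonpos hq0.le hq1.le
  have e4 : q * Real.log q / (1 - q) ≤ 0 :=
    div_nonpos_of_nonpos_of_nonneg (mul_nonpos_of_nonneg_of_nonpos hq0.le e3) e1.le
  linarith

theorem H_pow_le (n : ℕ) : H (r ^ (n + 1)) ≤ (r + (-Real.log r)) / (1 - r) * ((n + 1 : ℕ) * r ^ n) := by
  have e0 : 0 < 1 - r := by linarith
  have e1 := one_sub_pos h0 h1 (n + 1) (by omega)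
  have e2 : 0 < r ^ (n + 1) := pow_pos h0 _
  have e3 : r ^ (n + 1) ≤ r := by
    calc r ^ (n + 1) ≤ r ^ 1 := pow_le_pow_of_le_one h0.le h1.le (by omega)
      _ = r := pow_one r
  have hl : 0 < -Real.log r := by
    have := Real.log_neg h0 h1; linarith
  unfold H
  have h2 : -Real.log (1 - r ^ (n + 1)) ≤ r ^ (n + 1) / (1 - r) := by
    have h3 := Real.one_sub_inv_le_log_of_pos e1
    have h4 : 1 - (1 - r ^ (n + 1))⁻¹ = -(r ^ (n + 1) / (1 - r ^ (n + 1))) := by field_simp; ring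
    have h5 : r ^ (n + 1) / (1 - r ^ (n + 1)) ≤ r ^ (n + 1) / (1 - r) := by gcongr
    linarith
  have h6 : -(r ^ (n + 1) * Real.log (r ^ (n + 1)) / (1 - r ^ (n + 1))) ≤
      r ^ (n + 1) * ((n + 1 : ℕ) * (-Real.log r)) / (1 - r) := by
    rw [Real.log_pow]
    have h7 : -(r ^ (n + 1) * (((n + 1 : ℕ) : ℝ) * Real.log r) / (1 - r ^ (n + 1))) =
      r ^ (n + 1) * ((n + 1 : ℕ) * (-Real.log r)) / (1 - r ^ (n + 1)) := by ring
    rw [h7]
    gcongr
  have h8 : (1 : ℝ) ≤ (n + 1 : ℕ) := by exact_mod_cast Nat.succ_le_succ (Nat.zero_le n)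
  have h9 : r ^ (n + 1) = r * r ^ n := by ring
  have h10 : 0 < r ^ n := pow_pos h0 n
  calc -Real.log (1 - r ^ (n + 1)) - r ^ (n + 1) * Real.log (r ^ (n + 1)) / (1 - r ^ (n + 1))
      ≤ r ^ (n + 1) / (1 - r) + r ^ (n + 1) * ((n + 1 : ℕ) * (-Real.log r)) / (1 - r) := by linarith
    _ = (r * r ^ n + r ^ (n + 1) * ((n + 1 : ℕ) * (-Real.log r))) / (1 - r) := by rw [h9]; ring
    _ ≤ (r * r ^ n * (n + 1 : ℕ) + r ^ n * ((n + 1 : ℕ) * (-Real.log r))) / (1 - r) := by
        gcongr ?_ / _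
        have a1 : r * r ^ n ≤ r * r ^ n * (n + 1 : ℕ) := le_mul_of_one_le_right (by positivity) h8
        have a2 : r ^ (n + 1) ≤ r ^ n := pow_le_pow_of_le_one h0.le h1.le (by omega)
        have a3 : r ^ (n + 1) * ((n + 1 : ℕ) * (-Real.log r)) ≤ r ^ n * ((n + 1 : ℕ) * (-Real.log r)) := by
          gcongr
        linarith
    _ = _ := by ring

theorem H_summable : Summable (fun n : ℕ => H (r ^ (n + 1))) := by
  refine Summable.of_nonneg_of_le (fun n => H_nonneg (pow_pos h0 _) (pow_lt h0 h1 _ (by omega)))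
    (H_pow_le h0 h1) ?_
  apply Summable.mul_left
  have h2 : Summable (fun n : ℕ => (n : ℝ) ^ 1 * r ^ n) :=
    summable_pow_mul_geometric_of_norm_lt_one 1 (by rwa [Real.norm_of_nonneg h0.le])
  have h3 : Summable (fun n : ℕ => r ^ n) := summable_geometric_of_lt_one h0.le h1
  refine (h2.add h3).congr fun n => ?_
  push_cast
  ring

/-- the alternating series -/
noncomputable def Φ (r : ℝ) : ℝ := ∑' n : ℕ, (-1) ^ n * H (r ^ (n + 1))

theorem alt_summable : Summable (fun n : ℕ => (-1) ^ n * H (r ^ (n + 1))) := by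
  refine Summable.of_norm ?_
  refine (H_summable h0 h1).congr fun n => ?_
  rw [norm_mul, norm_pow, norm_neg, norm_one, one_pow, one_mul, Real.norm_of_nonneg
    (H_nonneg (pow_pos h0 _) (pow_lt h0 h1 _ (by omega)))]

omit h0 h1 in
theorem alt_sum (M : ℕ) :
    ∑ n ∈ range (2 * M + 1), (-1) ^ n * H (r ^ (n + 1)) =
      ∑ k ∈ range (M + 1), H (r ^ (2 * k + 1)) - ∑ j ∈ range M, H (r ^ (2 * j + 2)) := by
  induction M with
  | zero => simp
  | succ M ih =>
    rw [show 2 * (M + 1) + 1 = 2 * M + 1 + 1 + 1 by ring, sum_range_succ, sum_range_succ, ih,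
      sum_range_succ (fun k => H (r ^ (2 * k + 1))) (M + 1),
      sum_range_succ (fun j => H (r ^ (2 * j + 2))) M]
    have e1 : (-1 : ℝ) ^ (2 * M + 1) = -1 := by rw [pow_succ, pow_mul]; simp
    have e2 : (-1 : ℝ) ^ (2 * M + 1 + 1) = 1 := by rw [pow_succ, e1]; simp
    rw [e1, e2]
    have e3 : 2 * M + 1 + 1 = 2 * M + 2 := by ring
    have e4 : 2 * M + 1 + 1 + 1 = 2 * (M + 1) + 1 := by ring
    rw [e4, e3]
    ring

theorem alt_lim : Tendsto (fun M => ∑ k ∈ range (M + 1), H (r ^ (2 * k + 1)) -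
    ∑ j ∈ range M, H (r ^ (2 * j + 2))) atTop (𝓝 (Φ r)) := by
  have h2 := (alt_summable h0 h1).hasSum.tendsto_sum_nat
  have h3 : Tendsto (fun M : ℕ => 2 * M + 1) atTop atTop :=
    tendsto_atTop_mono (fun m => by show m ≤ _; omega) tendsto_id
  refine (h2.comp h3).congr fun M => ?_
  simp only [Function.comp]
  rw [alt_sum]

end

end Pool.Agent.TH41.SC
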