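import Mathlib
import Pool.Agent.TH41.SC.Lim

/-! The two sums as Lambert series; the whole range of angles. -/

set_option autoImplicit false

open Finset Filter Topology

namespace Pool.Agent.TH41.SC

open Pool.Agent.W259.GP Pool.Agent.W48.KS

theorem hs_congr {f g : ℕ → ℝ} {a : ℝ} (h : HasSum g a) (e : ∀ n, f n = g n) : HasSum f a := by
  rw [show f = g from funext e]
  exact h

theorem ph_nonneg' (c : ℝ) : 0 ≤ ph c := Real.sqrt_nonneg _

theorem ph_le_one' {c : ℝ} (hc : 0 < c) : ph c ≤ 1 := by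
  unfold ph
  rw [Real.sqrt_le_one]
  rw [div_le_one (by linarith)]
  linarith

theorem swap {f : ℕ → ℕ → ℝ} (hf : ∀ k m, 0 ≤ f k m) {A B : ℕ → ℝ}
    (hA : ∀ k, HasSum (f k) (A k)) (hB : ∀ m, HasSum (fun k => f k m) (B m)) (hs : Summable A) :
    Summable B ∧ ∑' k, A k = ∑' m, B m := by
  have h1 : Summable (fun p : ℕ × ℕ => f p.1 p.2) := by
    rw [summable_prod_of_nonneg (fun x => hf x.1 x.2)]
    exact ⟨fun k => (hA k).summable, by
      refine hs.congr fun k => ?_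
      exact (hA k).tsum_eq.symm⟩
  have h2 := Summable.tsum_comm (f := f) h1
  have h3 : Summable (fun p : ℕ × ℕ => f p.2 p.1) := h1.prod_symm
  refine ⟨?_, ?_⟩
  · have h4 := ((summable_prod_of_nonneg (f := fun p : ℕ × ℕ => f p.2 p.1)
      (fun x => hf x.2 x.1)).1 h3).2
    refine h4.congr fun m => ?_
    exact (hB m).tsum_eq
  · rw [← tsum_congr fun k => (hA k).tsum_eq, ← tsum_congr fun m => (hB m).tsum_eq]
    exact h2.symm

theorem hasSum_one {q : ℝ} (h0 : 0 ≤ q) (h1 : q < 1) :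
    HasSum (fun m : ℕ => ((m : ℝ) + 1) * q ^ m) (1 / (1 - q) ^ 2) := by
  have e1 := hasSum_coe_mul_geometric_of_norm_lt_one (r := q) (by rwa [Real.norm_of_nonneg h0])
  have e2 := hasSum_geometric_of_lt_one h0 h1
  have e3 := e1.add e2
  have h2 : 1 - q ≠ 0 := by linarith
  have h4 : q / (1 - q) ^ 2 + (1 - q)⁻¹ = 1 / (1 - q) ^ 2 := by field_simp; ring
  rw [h4] at e3
  exact hs_congr e3 fun m => by ring

theorem hasSum_odd {q : ℝ} (h0 : 0 ≤ q) (h1 : q < 1) :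
    HasSum (fun m : ℕ => (2 * (m : ℝ) + 1) * q ^ m) ((1 + q) / (1 - q) ^ 2) := by
  have e1 := (hasSum_coe_mul_geometric_of_norm_lt_one (r := q)
    (by rwa [Real.norm_of_nonneg h0])).mul_left 2
  have e2 := hasSum_geometric_of_lt_one h0 h1
  have e3 := e1.add e2
  have h2 : 1 - q ≠ 0 := by linarith
  have h4 : 2 * (q / (1 - q) ^ 2) + (1 - q)⁻¹ = (1 + q) / (1 - q) ^ 2 := by field_simp; ring
  rw [h4] at e3
  exact hs_congr e3 fun m => by ring

section
variable {r : ℝ} (h0 : 0 < r) (h1 : r < 1)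
include h0 h1

/-- the odd Lambert terms -/
theorem lam_odd : Summable (fun m : ℕ => (2 * (m : ℝ) + 1) * r ^ m / (1 - r ^ (2 * m + 1))) ∧
    ∑' k, a r k = ∑' m : ℕ, (2 * (m : ℝ) + 1) * r ^ m / (1 - r ^ (2 * m + 1)) := by
  refine swap (f := fun k m => r ^ k * ((2 * (m : ℝ) + 1) * (r ^ (2 * k + 1)) ^ m)) ?_ ?_ ?_
    (a_summable h0 h1)
  · intro k m; positivity
  · intro k
    have h := (hasSum_odd (pow_nonneg h0.le (2 * k + 1))
      (pow_lt h0 h1 (2 * k + 1) (by omega))).mul_left (r ^ k)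
    rw [← mul_div_assoc] at h
    exact h
  · intro m
    have h := (hasSum_geometric_of_lt_one (pow_nonneg h0.le (2 * m + 1))
      (pow_lt h0 h1 (2 * m + 1) (by omega))).mul_left ((2 * (m : ℝ) + 1) * r ^ m)
    rw [← div_eq_mul_inv] at h
    refine hs_congr h fun k => ?_
    have : r ^ k * (r ^ (2 * k + 1)) ^ m = r ^ m * (r ^ (2 * m + 1)) ^ k := by ring
    linear_combination (2 * (m : ℝ) + 1) * this

end

section
variable {s : ℝ} (h0 : 0 < s) (h1 : s < 1)
include h0 h1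

theorem b_eq (k : ℕ) : a (s ^ 2) k * ph (cc (s ^ 2) (2 * k + 1)) =
    2 * s ^ (4 * k + 1) / (1 - (s ^ 2) ^ (2 * k + 1)) ^ 2 := by
  rw [ph_cc h0 h1 _ (by omega)]
  unfold a
  have h2 : 0 < s ^ 2 := by positivity
  have h3 : s ^ 2 < 1 := pow_lt_one₀ h0.le h1 (by norm_num)
  have e1 := (one_sub_pos h2 h3 (2 * k + 1) (by omega)).ne'
  have e4 : (1 : ℝ) + (s ^ 2) ^ (2 * k + 1) ≠ 0 := by positivity
  field_simp
  ring

/-- the even Lambert terms -/
theorem lam_even : Summable (fun m : ℕ => (2 * (m : ℝ) + 2) * s * (s ^ 2) ^ m /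
      (1 - (s ^ 2) ^ (2 * m + 2))) ∧
    ∑' k, a (s ^ 2) k * ph (cc (s ^ 2) (2 * k + 1)) =
      ∑' m : ℕ, (2 * (m : ℝ) + 2) * s * (s ^ 2) ^ m / (1 - (s ^ 2) ^ (2 * m + 2)) := by
  have h2 : 0 < s ^ 2 := by positivity
  have h3 : s ^ 2 < 1 := pow_lt_one₀ h0.le h1 (by norm_num)
  refine swap (f := fun k m => 2 * s ^ (4 * k + 1) *
    (((m : ℝ) + 1) * ((s ^ 2) ^ (2 * k + 1)) ^ m)) ?_ ?_ ?_ ?_
  · intro k m; positivity
  · intro k
    rw [b_eq h0 h1]
    have h := (hasSum_one (pow_nonneg h2.le (2 * k + 1))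
      (pow_lt h2 h3 (2 * k + 1) (by omega))).mul_left (2 * s ^ (4 * k + 1))
    rw [mul_one_div] at h
    exact h
  · intro m
    have h := (hasSum_geometric_of_lt_one (pow_nonneg h2.le (2 * m + 2))
      (pow_lt h2 h3 (2 * m + 2) (by omega))).mul_left ((2 * (m : ℝ) + 2) * s * (s ^ 2) ^ m)
    rw [← div_eq_mul_inv] at h
    refine hs_congr h fun k => ?_
    have : s ^ (4 * k + 1) * ((s ^ 2) ^ (2 * k + 1)) ^ m =
      s * (s ^ 2) ^ m * ((s ^ 2) ^ (2 * m + 2)) ^ k := by ring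
    linear_combination 2 * ((m : ℝ) + 1) * this
  · refine Summable.of_nonneg_of_le (fun k => mul_nonneg (a_pos h2 h3 k).le (ph_nonneg' _))
      (fun k => ?_) (a_summable h2 h3)
    have := ph_le_one' (cc_pos h2 h3 (2 * k + 1) (by omega))
    have := a_pos h2 h3 k
    nlinarith

end

end Pool.Agent.TH41.SC
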