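import Mathlib
import Pool.Agent.TH41.SC.Lim

/-! Spherical codes: the limiting bound. -/

set_option autoImplicit false

open Finset Filter Topology MeasureTheory

namespace Pool.Agent.TH41.SC

open Pool.Agent.W259.GP Pool.Agent.W48.KS

theorem codes_mx {n : ℕ} {w c : Fin (n + 1) → ℝ} (hw : ∀ j, 0 < w j) (hsum : ∑ j, w j = 1)
    (hc : ∀ j, 0 < c j) {sd : ℝ} (hsd : 0 < sd)
    (hE : 1 - sd ^ 2 / 2 < ∑ j, w j * ph (c j)) {ε : ℝ} (hε : 0 < ε) :
    ∃ N0 : ℕ, ∀ N ≥ N0, ∀ C : Finset (EuclideanSpace ℝ (Fin N)), (∀ x ∈ C, ‖x‖ = 1) →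
      (∀ x ∈ C, ∀ y ∈ C, x ≠ y → sd ≤ dist x y) →
      (C.card : ℝ) ≤ Real.exp (N * (mx w c + ε)) := by
  obtain ⟨O, O', c', hO, hO', hc', hO0, hQ, hdet⟩ := Pool.Agent.W417.KS.la n w c hw hsum hc
  have hE2 : ∑ j, O j 0 ^ 2 * eC (c j) < 1 / 2 * sd ^ 2 := by
    have h1 : ∑ j, O j 0 ^ 2 * eC (c j) = 1 - ∑ j, w j * ph (c j) := by
      rw [← hsum, ← sum_sub_distrib]
      refine sum_congr rfl fun j _ => ?_
      rw [hO0]
      unfold eC ph
      ring
    rw [h1]
    linarith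
  have h1 := code_gauss hO hO' hc hc' hQ hsd hE2 hε
  have hint := Pool.Agent.W460.KSI.int
  have hg : ∀ x : ℝ, 0 < x → gH x = 1 - Real.log 2 + 1 / 2 * ∫ t in (0 : ℝ)..1,
      Real.log (1 + 2 * x - t ^ 2) := hint
  have hp : ∀ x : ℝ, 0 < x → 1 < 1 + 2 * x := fun x hx => by linarith
  have key : ∫ t in (0 : ℝ)..1, Real.log (∑ j, w j / (1 + 2 * c j - t ^ 2))
      = ∑ i, (∫ t in (0 : ℝ)..1, Real.log (1 + 2 * c' i - t ^ 2))
        - ∑ j, ∫ t in (0 : ℝ)..1, Real.log (1 + 2 * c j - t ^ 2) := by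
    rw [← intervalIntegral.integral_finsetSum fun i _ => int_log (hp _ (hc' i)),
      ← intervalIntegral.integral_finsetSum fun j _ => int_log (hp _ (hc j)),
      ← intervalIntegral.integral_sub]
    · apply intervalIntegral.integral_congr
      intro t ht
      rw [Set.uIcc_of_le zero_le_one] at ht
      have ht2 : t ^ 2 ≤ 1 := by nlinarith [ht.1, ht.2]
      have hd := hdet (t ^ 2) (sq_nonneg t) ht2
      have hpos : ∀ j, 0 < 1 + 2 * c j - t ^ 2 := fun j => by have := hc j; linarith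
      have hpos' : ∀ i, 0 < 1 + 2 * c' i - t ^ 2 := fun i => by have := hc' i; linarith
      have hR : 0 < ∑ j, w j / (1 + 2 * c j - t ^ 2) :=
        sum_pos (fun j _ => div_pos (hw j) (hpos j)) univ_nonempty
      show Real.log (∑ j, w j / (1 + 2 * c j - t ^ 2)) = ∑ i, Real.log (1 + 2 * c' i - t ^ 2)
        - ∑ j, Real.log (1 + 2 * c j - t ^ 2)
      rw [← Real.log_prod fun i _ => (hpos' i).ne', ← hd, Real.log_mul hR.ne'
        (prod_pos fun j _ => hpos j).ne', Real.log_prod fun i _ => (hpos i).ne']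
      ring
    · have := IntervalIntegrable.sum univ fun i _ => int_log (hp _ (hc' i))
      simpa only [Finset.sum_fn] using this
    · have := IntervalIntegrable.sum univ fun j _ => int_log (hp _ (hc j))
      simpa only [Finset.sum_fn] using this
  have hmx : mx w c = ∑ j, gH (c j) - ∑ j, gH (c' j) := by
    unfold mx
    rw [key]
    have h2 : ∑ j, gH (c j) = (n + 1) * (1 - Real.log 2)
        + 1 / 2 * ∑ j, ∫ t in (0 : ℝ)..1, Real.log (1 + 2 * c j - t ^ 2) := by
      rw [mul_sum, sum_congr rfl fun j _ => hg (c j) (hc j), sum_add_distrib, sum_const, card_univ,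
        Fintype.card_fin, nsmul_eq_mul]
      push_cast
      ring
    have h3 : ∑ i, gH (c' i) = n * (1 - Real.log 2)
        + 1 / 2 * ∑ i, ∫ t in (0 : ℝ)..1, Real.log (1 + 2 * c' i - t ^ 2) := by
      rw [mul_sum, sum_congr rfl fun j _ => hg (c' j) (hc' j), sum_add_distrib, sum_const, card_univ,
        Fintype.card_fin, nsmul_eq_mul]
    rw [h2, h3]
    ring
  rw [hmx]
  exact h1

/-- adding an atom -/
theorem mx_cons {n : ℕ} {w c : Fin (n + 1) → ℝ} (hw : ∀ j, 0 < w j)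
    (hc : ∀ j, 0 < c j) {δ P : ℝ} (hδ0 : 0 < δ) (hδ1 : δ < 1) (hP : 0 < P) :
    mx (n := n + 2) (Fin.cons δ fun j => (1 - δ) * w j) (Fin.cons P c) ≤
      mx w c - 1 / 2 * Real.log (1 - δ) := by
  have e0 : 0 < 1 - δ := by linarith
  have hS : ∀ t : ℝ, t ∈ Set.Icc (0 : ℝ) 1 → 0 < ∑ j, w j / (1 + 2 * c j - t ^ 2) := by
    intro t ht
    have ht2 : t ^ 2 ≤ 1 := by nlinarith [ht.1, ht.2]
    exact sum_pos (fun j _ => div_pos (hw j) (by have := hc j; linarith)) univ_nonempty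
  have hcont : ContinuousOn (fun t : ℝ => ∑ j, w j / (1 + 2 * c j - t ^ 2)) (Set.Icc 0 1) := by
    apply continuousOn_finsetSum
    intro j _
    apply ContinuousOn.div continuousOn_const (by fun_prop)
    intro t ht
    have ht2 : t ^ 2 ≤ 1 := by nlinarith [ht.1, ht.2]
    have := hc j
    have : 0 < 1 + 2 * c j - t ^ 2 := by linarith
    exact this.ne'
  have hcontP : ContinuousOn (fun t : ℝ => δ / (1 + 2 * P - t ^ 2)) (Set.Icc 0 1) := by
    apply ContinuousOn.div continuousOn_const (by fun_prop)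
    intro t ht
    have ht2 : t ^ 2 ≤ 1 := by nlinarith [ht.1, ht.2]
    have : 0 < 1 + 2 * P - t ^ 2 := by linarith
    exact this.ne'
  have hsum : ∀ t : ℝ, ∑ j, (Fin.cons δ (fun j => (1 - δ) * w j) : Fin (n + 2) → ℝ) j /
      (1 + 2 * (Fin.cons P c : Fin (n + 2) → ℝ) j - t ^ 2) =
      δ / (1 + 2 * P - t ^ 2) + (1 - δ) * ∑ j, w j / (1 + 2 * c j - t ^ 2) := by
    intro t
    rw [Fin.sum_univ_succ]
    simp only [Fin.cons_zero, Fin.cons_succ]
    rw [mul_sum]
    congr 1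
    exact sum_congr rfl fun j _ => by rw [mul_div_assoc]
  have h1 : Real.log (1 - δ) + ∫ t in (0 : ℝ)..1, Real.log (∑ j, w j / (1 + 2 * c j - t ^ 2)) ≤
      ∫ t in (0 : ℝ)..1, Real.log (δ / (1 + 2 * P - t ^ 2) +
        (1 - δ) * ∑ j, w j / (1 + 2 * c j - t ^ 2)) := by
    have h2 : Real.log (1 - δ) = ∫ _t in (0 : ℝ)..1, Real.log (1 - δ) := by simp
    have i1 : IntervalIntegrable (fun t : ℝ => Real.log (∑ j, w j / (1 + 2 * c j - t ^ 2)))
        volume 0 1 := by
      apply ContinuousOn.intervalIntegrable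
      rw [Set.uIcc_of_le zero_le_one]
      exact hcont.log fun t ht => (hS t ht).ne'
    rw [h2, ← intervalIntegral.integral_add (by simp) i1]
    apply intervalIntegral.integral_mono_on zero_le_one
    · exact IntervalIntegrable.add (by simp) i1
    · apply ContinuousOn.intervalIntegrable
      rw [Set.uIcc_of_le zero_le_one]
      apply ContinuousOn.log
      · exact hcontP.add (continuousOn_const.mul hcont)
      · intro t ht
        have ht2 : t ^ 2 ≤ 1 := by nlinarith [ht.1, ht.2]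
        have a1 : 0 < 1 + 2 * P - t ^ 2 := by linarith
        have := hS t ht
        positivity
    · intro t ht
      have ht2 : t ^ 2 ≤ 1 := by nlinarith [ht.1, ht.2]
      have a1 : 0 < 1 + 2 * P - t ^ 2 := by linarith
      have a2 := hS t ht
      rw [← Real.log_mul e0.ne' a2.ne']
      apply Real.log_le_log (by positivity)
      have : 0 < δ / (1 + 2 * P - t ^ 2) := by positivity
      linarith
  unfold mx
  simp only [hsum]
  linarith

theorem ph_big {κ : ℝ} (hκ : κ < 1) : ∃ P : ℝ, 0 < P ∧ κ < ph P := by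
  have h1 : Tendsto ph atTop (𝓝 1) := by
    have h2 : Tendsto (fun c : ℝ => 1 - 1 / (1 + 2 * c)) atTop (𝓝 (1 - 0)) := by
      apply Tendsto.sub tendsto_const_nhds
      have : Tendsto (fun c : ℝ => 1 + 2 * c) atTop atTop :=
        tendsto_atTop_add_const_left _ _ (tendsto_id.const_mul_atTop two_pos)
      simpa only [one_div, Function.comp_def] using tendsto_inv_atTop_zero.comp this
    have h3 : Tendsto (fun c : ℝ => √(1 - 1 / (1 + 2 * c))) atTop (𝓝 (√(1 - 0))) :=
      (Real.continuous_sqrt.tendsto _).comp h2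
    rw [sub_zero, Real.sqrt_one] at h3
    refine h3.congr' ?_
    filter_upwards [eventually_gt_atTop 0] with c hc
    unfold ph
    congr 1
    field_simp
    ring
  obtain ⟨P, hP1, hP2⟩ := ((h1.eventually (lt_mem_nhds hκ)).and (eventually_gt_atTop 0)).exists
  exact ⟨P, hP2, hP1⟩

theorem ph_nonneg (c : ℝ) : 0 ≤ ph c := Real.sqrt_nonneg _

theorem ph_le_one {c : ℝ} (hc : 0 < c) : ph c ≤ 1 := by
  unfold ph
  rw [Real.sqrt_le_one]
  rw [div_le_one (by linarith)]
  linarith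

/-- the main bound for codes -/
theorem codes_main {r : ℝ} (h0 : 0 < r) (h1 : r < 1) {sd : ℝ} (hsd : 0 < sd)
    (hE : (1 - sd ^ 2 / 2) * ∑' k, a r k ≤ ∑' k, a r k * ph (cc r (2 * k + 1))) {ε : ℝ}
    (hε : 0 < ε) :
    ∃ N0 : ℕ, ∀ N ≥ N0, ∀ C : Finset (EuclideanSpace ℝ (Fin N)), (∀ x ∈ C, ‖x‖ = 1) →
      (∀ x ∈ C, ∀ y ∈ C, x ≠ y → sd ≤ dist x y) →
      (C.card : ℝ) ≤ Real.exp (N * (Φ r + ε)) := by
  have hcc : ∀ k : ℕ, 0 < cc r (2 * k + 1) := fun k => cc_pos h0 h1 _ (by omega)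
  set κ := 1 - sd ^ 2 / 2 with hκ
  have hκ1 : κ < 1 := by
    have : 0 < sd ^ 2 := by positivity
    linarith
  set μ := (∑' k, a r k * ph (cc r (2 * k + 1))) / ∑' k, a r k with hμ
  have hκμ : κ ≤ μ := by
    rw [hμ, le_div_iff₀ (a_tsum_pos h0 h1)]
    exact hE
  obtain ⟨P, hP0, hP⟩ := ph_big hκ1
  -- choice of δ
  obtain ⟨δ, hδ0, hδ1, hδ⟩ : ∃ δ : ℝ, 0 < δ ∧ δ < 1 ∧ -(1 / 2 * Real.log (1 - δ)) < ε / 3 := by
    have hlim : Tendsto (fun δ : ℝ => -(1 / 2 * Real.log (1 - δ))) (𝓝[>] 0) (𝓝 0) := by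
      have : Tendsto (fun δ : ℝ => -(1 / 2 * Real.log (1 - δ))) (𝓝 0)
          (𝓝 (-(1 / 2 * Real.log (1 - 0)))) := by
        apply ContinuousAt.tendsto
        apply ContinuousAt.neg
        apply ContinuousAt.mul continuousAt_const
        apply ContinuousAt.log
        · fun_prop
        · norm_num
      simp only [sub_zero, Real.log_one, mul_zero, neg_zero] at this
      exact this.mono_left nhdsWithin_le_nhds
    have h2 := hlim.eventually (gt_mem_nhds (by positivity : (0 : ℝ) < ε / 3))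
    have h3 : ∀ᶠ δ : ℝ in 𝓝[>] 0, δ < 1 :=
      (Filter.Tendsto.eventually (tendsto_id.mono_left nhdsWithin_le_nhds)
        (gt_mem_nhds one_pos))
    obtain ⟨δ, ⟨h4, h5⟩, h6⟩ := ((h2.and h3).and self_mem_nhdsWithin).exists
    exact ⟨δ, h6, h5, h4⟩
  have hlim1 := mean_lim h0 h1 (fun k => ph (cc r (2 * k + 1))) (fun k => by
    rw [abs_of_nonneg (ph_nonneg _)]; exact ph_le_one (hcc k))
  have hlim2 := alt_lim h0 h1
  have hgt : κ < δ * ph P + (1 - δ) * μ := by
    have e1 : δ * κ < δ * ph P := mul_lt_mul_of_pos_left hP hδ0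
    have e2 : (1 - δ) * κ ≤ (1 - δ) * μ := mul_le_mul_of_nonneg_left hκμ (by linarith)
    linarith
  have hlim3 : Tendsto (fun M => δ * ph P + (1 - δ) * ∑ k ∈ range (M + 1), W r M k *
      ph (cc r (2 * k + 1))) atTop (𝓝 (δ * ph P + (1 - δ) * μ)) :=
    tendsto_const_nhds.add (tendsto_const_nhds.mul hlim1)
  obtain ⟨M, hM1, hM2⟩ := ((hlim3.eventually (lt_mem_nhds hgt)).and
    (hlim2.eventually (gt_mem_nhds (show Φ r < Φ r + ε / 3 by linarith)))).exists
  set w : Fin (M + 1) → ℝ := fun k => W r M k with hw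
  set c : Fin (M + 1) → ℝ := fun k => cc r (2 * k + 1) with hc
  have hwpos : ∀ j, 0 < w j := fun j => W_pos h0 h1 M j (Nat.lt_succ_iff.1 j.2)
  have hcpos : ∀ j, 0 < c j := fun j => hcc j
  have hwsum : ∑ j, w j = 1 := by
    rw [hw, Fin.sum_univ_eq_sum_range (fun k => W r M k)]
    exact W_sum h0 h1 M
  have hmx : mx w c < Φ r + ε / 3 := by
    rw [hw, hc, mx_eq h0 h1]
    exact hM2
  have hcons := mx_cons hwpos hcpos hδ0 hδ1 hP0
  have e0 : 0 < 1 - δ := by linarith
  obtain ⟨N0, hN0⟩ := codes_mx (n := M + 1) (w := Fin.cons δ fun j => (1 - δ) * w j)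
    (c := Fin.cons P c) (sd := sd) (ε := ε / 3)
    (fun j => by
      refine Fin.cases ?_ (fun i => ?_) j
      · simpa using hδ0
      · simp only [Fin.cons_succ]; exact mul_pos e0 (hwpos i))
    (by
      rw [Fin.sum_univ_succ]
      simp only [Fin.cons_zero, Fin.cons_succ]
      rw [← mul_sum, hwsum]
      ring)
    (fun j => by
      refine Fin.cases ?_ (fun i => ?_) j
      · simpa using hP0
      · simp only [Fin.cons_succ]; exact hcpos i)
    hsd
    (by
      rw [Fin.sum_univ_succ]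
      simp only [Fin.cons_zero, Fin.cons_succ]
      have e3 : ∑ i, (1 - δ) * w i * ph (c i) =
          (1 - δ) * ∑ k ∈ range (M + 1), W r M k * ph (cc r (2 * k + 1)) := by
        rw [← Fin.sum_univ_eq_sum_range (fun k => W r M k * ph (cc r (2 * k + 1))), mul_sum]
        exact sum_congr rfl fun i _ => by rw [mul_assoc]
      rw [e3]
      exact hM1)
    (by positivity)
  refine ⟨N0, fun N hN C hC1 hC2 => (hN0 N hN C hC1 hC2).trans ?_⟩
  apply Real.exp_le_exp.2
  apply mul_le_mul_of_nonneg_left _ (Nat.cast_nonneg N)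
  linarith

theorem rate_main {r : ℝ} (h0 : 0 < r) (h1 : r < 1) {θ : ℝ} (hθ : Real.cos θ < 1)
    (hE : Real.cos θ * ∑' k, a r k ≤ ∑' k, a r k * ph (cc r (2 * k + 1))) : rate θ ≤ Φ r := by
  refine rate_le fun ε hε => ?_
  have hsd : 0 < √(2 - 2 * Real.cos θ) := Real.sqrt_pos.mpr (by linarith)
  have hE2 : (1 - √(2 - 2 * Real.cos θ) ^ 2 / 2) * ∑' k, a r k ≤
      ∑' k, a r k * ph (cc r (2 * k + 1)) := by
    rw [Real.sq_sqrt (by linarith)]
    convert hE using 2
    ring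
  obtain ⟨N0, hN0⟩ := codes_main h0 h1 hsd hE2 hε
  exact ⟨N0, fun N hN C hC => hN0 N hN C hC.1 (dist_of_code hC)⟩

end Pool.Agent.TH41.SC
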