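import Mathlib
import Pool.Agent.TH41.SC.Lambert
import Pool.Agent.TH41.SC.Main

/-! Hyperbolic form of the sums, and the whole range of angles. -/

set_option autoImplicit false

open Finset Filter Topology

namespace Pool.Agent.TH41.SC

open Pool.Agent.W259.GP Pool.Agent.W48.KS

theorem pow_mean {r : ℝ} (h0 : 0 ≤ r) (h1 : r ≤ 1) (n : ℕ) :
    (n : ℝ) * (1 - r ^ (n + 1)) ≤ (n + 1) * (1 - r ^ n) := by
  induction n with
  | zero => simp
  | succ n ih =>
    push_cast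
    have h2 : 0 ≤ r ^ n := pow_nonneg h0 n
    have h3 : 0 ≤ r ^ (n + 1) := pow_nonneg h0 _
    have h4 : (1 - r ^ (n + 1)) * r ≤ (1 - r ^ (n + 1)) := by
      apply mul_le_of_le_one_right _ h1
      have := pow_le_one₀ h0 h1 (n := n + 1)
      linarith
    have e1 : r ^ (n + 1 + 1) = r * r ^ (n + 1) := by ring
    have e2 : r ^ (n + 1) = r * r ^ n := by ring
    have h5 := mul_le_mul_of_nonneg_left ih h0
    have h6 : 0 ≤ (1 - r) * (1 - r ^ (n + 1)) := mul_nonneg (by linarith) (by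
      have := pow_le_one₀ h0 h1 (n := n + 1)
      linarith)
    rw [e1]
    nlinarith [h5, h6, mul_nonneg h0 h3, mul_nonneg (by linarith : 0 ≤ 1 - r) (by linarith : 0 ≤ 1 - r)]

section
variable {s : ℝ} (h0 : 0 < s) (h1 : s < 1)
include h0 h1

theorem beta_le : ∑' k, a (s ^ 2) k * ph (cc (s ^ 2) (2 * k + 1)) ≤ 2 * s * ∑' k, a (s ^ 2) k := by
  have h2 : 0 < s ^ 2 := by positivity
  have h3 : s ^ 2 < 1 := pow_lt_one₀ h0.le h1 (by norm_num)
  have hs := a_summable h2 h3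
  rw [← tsum_mul_left]
  refine Summable.tsum_le_tsum (fun k => ?_) ?_ (hs.mul_left _)
  · rw [b_eq h0 h1]
    have e1 := one_sub_pos h2 h3 (2 * k + 1) (by omega)
    unfold a
    rw [← mul_div_assoc]
    apply div_le_div_of_nonneg_right _ (by positivity)
    have e2 : s ^ (4 * k + 1) = s * ((s ^ 2) ^ k * (s ^ 2) ^ k) := by ring
    have e3 : 0 < (s ^ 2) ^ k := by positivity
    have e4 : (s ^ 2) ^ k ≤ 1 := pow_le_one₀ h2.le h3.le
    have e5 : 0 < (s ^ 2) ^ (2 * k + 1) := by positivity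
    have e6 : (s ^ 2) ^ k * (s ^ 2) ^ k ≤ (s ^ 2) ^ k * (1 + (s ^ 2) ^ (2 * k + 1)) := by
      gcongr
      linarith
    rw [e2]
    calc 2 * (s * ((s ^ 2) ^ k * (s ^ 2) ^ k)) = 2 * s * ((s ^ 2) ^ k * (s ^ 2) ^ k) := by ring
      _ ≤ _ := by gcongr
  · refine Summable.of_nonneg_of_le (fun k => mul_nonneg (a_pos h2 h3 k).le (ph_nonneg' _))
      (fun k => ?_) (a_summable h2 h3)
    have := ph_le_one' (cc_pos h2 h3 (2 * k + 1) (by omega))
    have := a_pos h2 h3 k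
    nlinarith

theorem beta_ge : s * ∑' k, a (s ^ 2) k ≤ ∑' k, a (s ^ 2) k * ph (cc (s ^ 2) (2 * k + 1)) := by
  have h2 : 0 < s ^ 2 := by positivity
  have h3 : s ^ 2 < 1 := pow_lt_one₀ h0.le h1 (by norm_num)
  rw [(lam_odd h2 h3).2, (lam_even h0 h1).2, ← tsum_mul_left]
  refine Summable.tsum_le_tsum (fun m => ?_) ((lam_odd h2 h3).1.mul_left _) (lam_even h0 h1).1
  have e1 := one_sub_pos h2 h3 (2 * m + 1) (by omega)
  have e2 := one_sub_pos h2 h3 (2 * m + 2) (by omega)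
  have e3 := pow_mean h2.le h3.le (2 * m + 1)
  push_cast at e3
  rw [← mul_div_assoc, div_le_div_iff₀ e1 e2]
  have e4 : 0 ≤ s * (s ^ 2) ^ m := by positivity
  have e5 := mul_le_mul_of_nonneg_left e3 e4
  have e6 : 2 * m + 1 + 1 = 2 * m + 2 := by ring
  rw [e6] at e5
  linarith

end

/-- for every value between `0` and `1` there is a parameter -/
theorem exists_s {κ : ℝ} (h0 : 0 < κ) (h1 : κ < 1) : ∃ s : ℝ, 0 < s ∧ s < 1 ∧
    κ * ∑' k, a (s ^ 2) k = ∑' k, a (s ^ 2) k * ph (cc (s ^ 2) (2 * k + 1)) := by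
  set t : ℕ → ℝ → ℝ := fun m s => (2 * (m : ℝ) + 2) * s * (s ^ 2) ^ m /
    (1 - (s ^ 2) ^ (2 * m + 2)) - κ * ((2 * (m : ℝ) + 1) * (s ^ 2) ^ m /
      (1 - (s ^ 2) ^ (2 * m + 1))) with ht
  have hF : ∀ s : ℝ, 0 < s → s < 1 → ∑' m, t m s =
      ∑' k, a (s ^ 2) k * ph (cc (s ^ 2) (2 * k + 1)) - κ * ∑' k, a (s ^ 2) k := by
    intro s hs0 hs1
    have h2 : 0 < s ^ 2 := by positivity
    have h3 : s ^ 2 < 1 := pow_lt_one₀ hs0.le hs1 (by norm_num)
    rw [(lam_odd h2 h3).2, (lam_even hs0 hs1).2, ← tsum_mul_left, ← Summable.tsum_sub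
      (lam_even hs0 hs1).1 ((lam_odd h2 h3).1.mul_left κ)]
  have hcont : ContinuousOn (fun s => ∑' m, t m s) (Set.Icc (κ / 2) κ) := by
    have hden : ∀ s ∈ Set.Icc (κ / 2) κ, ∀ n : ℕ, n ≠ 0 → 1 - κ ^ 2 ≤ 1 - (s ^ 2) ^ n := by
      intro s hs n hn
      have e1 : 0 ≤ s := by linarith [hs.1]
      have e2 : s ^ 2 ≤ κ ^ 2 := by gcongr; exact hs.2
      have e3 : (s ^ 2) ^ n ≤ s ^ 2 := by
        apply pow_le_of_le_one (by positivity) _ hn
        exact pow_le_one₀ e1 (by linarith [hs.2])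
      linarith
    have hκ2 : 0 < 1 - κ ^ 2 := by nlinarith
    refine continuousOn_tsum (f := t)
      (u := fun m : ℕ => (2 / (1 - κ ^ 2)) * (((m : ℝ) + 1) * (κ ^ 2) ^ m)) ?_ ?_ ?_
    · intro m
      apply ContinuousOn.sub
      · apply ContinuousOn.div (by fun_prop) (by fun_prop)
        intro s hs
        have := hden s hs (2 * m + 2) (by omega)
        exact (by linarith : 0 < 1 - (s ^ 2) ^ (2 * m + 2)).ne'
      · apply ContinuousOn.mul continuousOn_const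
        apply ContinuousOn.div (by fun_prop) (by fun_prop)
        intro s hs
        have := hden s hs (2 * m + 1) (by omega)
        exact (by linarith : 0 < 1 - (s ^ 2) ^ (2 * m + 1)).ne'
    · apply Summable.mul_left
      exact (hasSum_one (q := κ ^ 2) (by positivity) (by linarith)).summable
    · intro m s hs
      have e1 : 0 < s := by linarith [hs.1]
      have e2 : s ≤ 1 := by linarith [hs.2]
      have d1 := hden s hs (2 * m + 1) (by omega)
      have d2 := hden s hs (2 * m + 2) (by omega)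
      have e3 : (s ^ 2) ^ m ≤ (κ ^ 2) ^ m := by
        gcongr
        exact hs.2
      have e4 : 0 < (s ^ 2) ^ m := by positivity
      have p1 : (2 * (m : ℝ) + 2) * s * (s ^ 2) ^ m / (1 - (s ^ 2) ^ (2 * m + 2)) ≤
          (2 / (1 - κ ^ 2)) * (((m : ℝ) + 1) * (κ ^ 2) ^ m) := by
        calc _ ≤ (2 * (m : ℝ) + 2) * 1 * (κ ^ 2) ^ m / (1 - κ ^ 2) := by gcongr
          _ = _ := by ring
      have p2 : κ * ((2 * (m : ℝ) + 1) * (s ^ 2) ^ m / (1 - (s ^ 2) ^ (2 * m + 1))) ≤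
          (2 / (1 - κ ^ 2)) * (((m : ℝ) + 1) * (κ ^ 2) ^ m) := by
        have d3 : 0 < 1 - (s ^ 2) ^ (2 * m + 1) := by linarith
        calc _ ≤ 1 * ((2 * (m : ℝ) + 2) * (κ ^ 2) ^ m / (1 - κ ^ 2)) := by
              gcongr
              linarith
          _ = _ := by ring
      have p3 : 0 ≤ (2 * (m : ℝ) + 2) * s * (s ^ 2) ^ m / (1 - (s ^ 2) ^ (2 * m + 2)) := by
        have : 0 < 1 - (s ^ 2) ^ (2 * m + 2) := by linarith
        positivity
      have p4 : 0 ≤ κ * ((2 * (m : ℝ) + 1) * (s ^ 2) ^ m / (1 - (s ^ 2) ^ (2 * m + 1))) := by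
        have : 0 < 1 - (s ^ 2) ^ (2 * m + 1) := by linarith
        positivity
      rw [Real.norm_eq_abs, abs_le]
      constructor
      · show _ ≤ (2 * (m : ℝ) + 2) * s * (s ^ 2) ^ m / (1 - (s ^ 2) ^ (2 * m + 2)) -
          κ * ((2 * (m : ℝ) + 1) * (s ^ 2) ^ m / (1 - (s ^ 2) ^ (2 * m + 1)))
        linarith
      · show (2 * (m : ℝ) + 2) * s * (s ^ 2) ^ m / (1 - (s ^ 2) ^ (2 * m + 2)) -
          κ * ((2 * (m : ℝ) + 1) * (s ^ 2) ^ m / (1 - (s ^ 2) ^ (2 * m + 1))) ≤ _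
        linarith
  have hivt := intermediate_value_Icc (by linarith : κ / 2 ≤ κ) hcont
  have hl : ∑' m, t m (κ / 2) ≤ 0 := by
    rw [hF _ (by linarith) (by linarith)]
    have := beta_le (s := κ / 2) (by linarith) (by linarith)
    have e : 2 * (κ / 2) = κ := by ring
    rw [e] at this
    linarith
  have hr : 0 ≤ ∑' m, t m κ := by
    rw [hF _ h0 h1]
    have := beta_ge h0 h1
    linarith
  obtain ⟨s, hs, hs2⟩ := hivt ⟨hl, hr⟩
  refine ⟨s, by linarith [hs.1], by linarith [hs.2], ?_⟩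
  have hs3 : ∑' m, t m s = 0 := hs2
  rw [hF s (by linarith [hs.1]) (by linarith [hs.2])] at hs3
  linarith

/-! ### hyperbolic form -/

theorem exp_s {η : ℝ} (hη : 0 < η) : 0 < Real.exp (-η) ∧ Real.exp (-η) < 1 :=
  ⟨Real.exp_pos _, by rw [Real.exp_lt_one_iff]; linarith⟩

theorem exp_pow (η : ℝ) (n : ℕ) : Real.exp (-(n * η)) = Real.exp (-η) ^ n := by
  rw [← Real.exp_nat_mul]
  congr 1
  ring

theorem exp_pow_inv (η : ℝ) (n : ℕ) : Real.exp (n * η) = (Real.exp (-η) ^ n)⁻¹ := by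
  rw [← exp_pow, ← Real.exp_neg, neg_neg]

theorem sinh_s (η : ℝ) (n : ℕ) :
    Real.sinh (n * η) = (1 - (Real.exp (-η) ^ 2) ^ n) / (2 * Real.exp (-η) ^ n) := by
  rw [Real.sinh_eq, exp_pow, exp_pow_inv]
  have := Real.exp_pos (-η)
  field_simp
  ring

theorem cosh_s (η : ℝ) (n : ℕ) :
    Real.cosh (n * η) = (1 + (Real.exp (-η) ^ 2) ^ n) / (2 * Real.exp (-η) ^ n) := by
  rw [Real.cosh_eq, exp_pow, exp_pow_inv]
  have := Real.exp_pos (-η)
  field_simp
  ring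

theorem div_sinh_s {η : ℝ} (hη : 0 < η) (n : ℕ) (hn : n ≠ 0) : (n : ℝ) / Real.sinh (n * η) =
    2 * (n * Real.exp (-η) ^ n / (1 - (Real.exp (-η) ^ 2) ^ n)) := by
  rw [sinh_s]
  obtain ⟨e0, e1⟩ := exp_s hη
  have h2 : 0 < Real.exp (-η) ^ 2 := by positivity
  have h3 : Real.exp (-η) ^ 2 < 1 := pow_lt_one₀ e0.le e1 (by norm_num)
  have e2 := (one_sub_pos h2 h3 n hn).ne'
  field_simp

/-- the function of Kabatiansky and Levenshtein -/
noncomputable def g (ν : ℝ) : ℝ :=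
  (ν + 1) / 2 * Real.log ((ν + 1) / 2) - (ν - 1) / 2 * Real.log ((ν - 1) / 2)

theorem g_coth {η : ℝ} (hη : 0 < η) (n : ℕ) (hn : n ≠ 0) :
    g (Real.cosh (n * η) / Real.sinh (n * η)) = H ((Real.exp (-η) ^ 2) ^ n) := by
  obtain ⟨e0, e1⟩ := exp_s hη
  have h2 : 0 < Real.exp (-η) ^ 2 := by positivity
  have h3 : Real.exp (-η) ^ 2 < 1 := pow_lt_one₀ e0.le e1 (by norm_num)
  have e2 := one_sub_pos h2 h3 n hn
  have e4 : 0 < (Real.exp (-η) ^ 2) ^ n := by positivity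
  rw [sinh_s, cosh_s]
  set q := (Real.exp (-η) ^ 2) ^ n with hq
  have e5 : 0 < Real.exp (-η) ^ n := by positivity
  have e3 : (1 + q) / (2 * Real.exp (-η) ^ n) / ((1 - q) / (2 * Real.exp (-η) ^ n)) =
      (1 + q) / (1 - q) := by
    have := e2.ne'
    field_simp
  rw [e3]
  unfold g H
  have a1 : ((1 + q) / (1 - q) + 1) / 2 = 1 / (1 - q) := by
    have := e2.ne'
    field_simp; ring
  have a2 : ((1 + q) / (1 - q) - 1) / 2 = q / (1 - q) := by
    have := e2.ne'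
    field_simp; ring
  rw [a1, a2, Real.log_div one_ne_zero e2.ne', Real.log_div e4.ne' e2.ne', Real.log_one]
  have := e2.ne'
  field_simp
  ring

end Pool.Agent.TH41.SC
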