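import Mathlib
import Pool.Agent.TH41.SC.Angle

/-! Numerical values at the angle `π / 3`. -/

set_option autoImplicit false

open Finset Filter Topology

namespace Pool.Agent.TH41.SC

open Pool.Agent.W259.GP Pool.Agent.W48.KS

theorem H_hasDerivAt {q : ℝ} (h0 : 0 < q) (h1 : q < 1) :
    HasDerivAt H (-Real.log q / (1 - q) ^ 2) q := by
  have e1 : 1 - q ≠ 0 := by linarith
  have d0 : HasDerivAt (fun x : ℝ => 1 - x) (-1) q := by
    simpa using (hasDerivAt_id q).const_sub 1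
  have d1 : HasDerivAt (fun x : ℝ => Real.log (1 - x)) (-1 / (1 - q)) q := d0.log e1
  have d2 : HasDerivAt (fun x : ℝ => x * Real.log x) (Real.log q + 1) q :=
    Real.hasDerivAt_mul_log h0.ne'
  have d3 := (d1.neg).sub (d2.div d0 e1)
  have e : -(-1 / (1 - q)) - ((Real.log q + 1) * (1 - q) - q * Real.log q * -1) / (1 - q) ^ 2 =
      -Real.log q / (1 - q) ^ 2 := by
    field_simp
    ring
  rw [e] at d3
  exact d3

theorem H_mono : StrictMonoOn H (Set.Ioo 0 1) := by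
  apply strictMonoOn_of_deriv_pos (convex_Ioo 0 1)
  · intro q hq
    exact (H_hasDerivAt hq.1 hq.2).continuousAt.continuousWithinAt
  · intro q hq
    rw [interior_Ioo] at hq
    rw [(H_hasDerivAt hq.1 hq.2).deriv]
    have h1 := Real.log_neg hq.1 hq.2
    have h2 : 0 < 1 - q := by linarith [hq.2]
    have h3 : 0 < -Real.log q := by linarith
    positivity

section
variable {r : ℝ} (h0 : 0 < r) (h1 : r < 1)
include h0 h1

theorem H_pow_anti : StrictAnti (fun n : ℕ => H (r ^ (n + 1))) := by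
  apply strictAnti_nat_of_succ_lt
  intro n
  apply H_mono ⟨pow_pos h0 _, pow_lt h0 h1 _ (by omega)⟩ ⟨pow_pos h0 _, pow_lt h0 h1 _ (by omega)⟩
  exact pow_lt_pow_right_of_lt_one₀ h0 h1 (by omega)

theorem Φ_le (k : ℕ) : Φ r ≤ ∑ i ∈ range (2 * k + 1), (-1) ^ i * H (r ^ (i + 1)) :=
  Antitone.tendsto_le_alternating_series (alt_summable h0 h1).hasSum.tendsto_sum_nat
    (H_pow_anti h0 h1).antitone k

theorem le_Φ (k : ℕ) : ∑ i ∈ range (2 * k), (-1) ^ i * H (r ^ (i + 1)) ≤ Φ r :=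
  Antitone.alternating_series_le_tendsto (alt_summable h0 h1).hasSum.tendsto_sum_nat
    (H_pow_anti h0 h1).antitone k

theorem Φ_lt_first : Φ r < H r := by
  have h2 := Φ_le h0 h1 1
  have h3 := H_pow_anti h0 h1 (show 1 < 2 by norm_num)
  simp only [sum_range_succ, range_zero, sum_empty, mul_one, Nat.reduceAdd] at h2
  norm_num at h2
  norm_num at h3
  linarith

theorem Φ_pos : 0 < Φ r := by
  have h2 := le_Φ h0 h1 1
  have h3 := H_pow_anti h0 h1 (show 0 < 1 by norm_num)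
  simp only [sum_range_succ, range_zero, sum_empty, mul_one] at h2
  norm_num at h2
  norm_num at h3
  linarith

theorem a_tail (K : ℕ) : ∑' k, a r (k + K) ≤ 2 * r ^ K / (1 - r) ^ 3 := by
  have e1 : 0 < 1 - r := by linarith
  have h2 : ∀ k, a r (k + K) ≤ 2 / (1 - r) ^ 2 * r ^ K * r ^ k := fun k => by
    refine (a_le h0 h1 (k + K)).trans (le_of_eq ?_)
    ring
  have h3 : Summable fun k : ℕ => 2 / (1 - r) ^ 2 * r ^ K * r ^ k :=
    (summable_geometric_of_lt_one h0.le h1).mul_left _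
  refine (Summable.tsum_le_tsum h2 ((summable_nat_add_iff K).2 (a_summable h0 h1)) h3).trans
    (le_of_eq ?_)
  rw [tsum_mul_left, tsum_geometric_of_lt_one h0.le h1]
  field_simp

end

/-- sufficient condition for the hypothesis of the main bound -/
theorem hyp_of_partial {s κ : ℝ} (h0 : 0 < s) (h1 : s < 1) (hκ : 0 ≤ κ) (K : ℕ)
    (h : κ * (2 * (s ^ 2) ^ K / (1 - s ^ 2) ^ 3) ≤ ∑ k ∈ range K,
      (2 * s ^ (4 * k + 1) / (1 - (s ^ 2) ^ (2 * k + 1)) ^ 2 - κ * a (s ^ 2) k)) :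
    κ * ∑' k, a (s ^ 2) k ≤ ∑' k, a (s ^ 2) k * ph (cc (s ^ 2) (2 * k + 1)) := by
  have h2 : 0 < s ^ 2 := by positivity
  have h3 : s ^ 2 < 1 := pow_lt_one₀ h0.le h1 (by norm_num)
  have hs := a_summable h2 h3
  have hb : Summable (fun k => a (s ^ 2) k * ph (cc (s ^ 2) (2 * k + 1))) := by
    refine Summable.of_nonneg_of_le (fun k => mul_nonneg (a_pos h2 h3 k).le (ph_nonneg' _))
      (fun k => ?_) hs
    have := ph_le_one' (cc_pos h2 h3 (2 * k + 1) (by omega))
    have := a_pos h2 h3 k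
    nlinarith
  rw [← hs.sum_add_tsum_nat_add K, ← hb.sum_add_tsum_nat_add K]
  have t1 := a_tail h2 h3 K
  have t2 : 0 ≤ ∑' k, a (s ^ 2) (k + K) * ph (cc (s ^ 2) (2 * (k + K) + 1)) :=
    tsum_nonneg fun k => mul_nonneg (a_pos h2 h3 _).le (ph_nonneg' _)
  have t3 : κ * ∑' k, a (s ^ 2) (k + K) ≤ κ * (2 * (s ^ 2) ^ K / (1 - s ^ 2) ^ 3) := by gcongr
  rw [sum_sub_distrib, ← mul_sum] at h
  have t4 : ∑ k ∈ range K, 2 * s ^ (4 * k + 1) / (1 - (s ^ 2) ^ (2 * k + 1)) ^ 2 =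
      ∑ k ∈ range K, a (s ^ 2) k * ph (cc (s ^ 2) (2 * k + 1)) :=
    sum_congr rfl fun k _ => (b_eq h0 h1 k).symm
  rw [t4] at h
  rw [mul_add]
  linarith

theorem num_hyp : (1 / 2 : ℝ) * ∑' k, a ((6515 / 22611 : ℝ) ^ 2) k ≤
    ∑' k, a ((6515 / 22611 : ℝ) ^ 2) k * ph (cc ((6515 / 22611 : ℝ) ^ 2) (2 * k + 1)) := by
  refine hyp_of_partial (by norm_num) (by norm_num) (by norm_num) 9 ?_
  simp only [sum_range_succ, range_zero, sum_empty, a]
  norm_num

theorem log_bound {x : ℝ} (h0 : 0 < x) (h1 : x < 1) (n : ℕ) :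
    -(∑ i ∈ range n, x ^ (i + 1) / (i + 1)) - x ^ (n + 1) / (1 - x) ≤ Real.log (1 - x) ∧
    Real.log (1 - x) ≤ -(∑ i ∈ range n, x ^ (i + 1) / (i + 1)) + x ^ (n + 1) / (1 - x) := by
  have h := Real.abs_log_sub_add_sum_range_le (x := x) (by rwa [abs_of_pos h0]) n
  rw [abs_of_pos h0, abs_le] at h
  exact ⟨by linarith [h.1], by linarith [h.2]⟩

theorem num_Φ : Φ ((6515 / 22611 : ℝ) ^ 2) < 396601 / 1000000 * Real.log 2 := by
  have h := Φ_le (r := (6515 / 22611 : ℝ) ^ 2) (by norm_num) (by norm_num) 4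
  refine h.trans_lt ?_
  have l2a := Real.log_two_gt_d9
  have l2b := Real.log_two_lt_d9
  have hl : Real.log ((6515 / 22611 : ℝ) ^ 2) =
      -(4 * Real.log 2) - 2 * Real.log (22611 / 26060) := by
    rw [Real.log_pow, Real.log_div (by norm_num) (by norm_num),
      Real.log_div (by norm_num) (by norm_num), show (26060 : ℝ) = 2 ^ 2 * 6515 by norm_num,
      Real.log_mul (by norm_num) (by norm_num), Real.log_pow]
    push_cast
    ring
  have m1 := (log_bound (x := 3449 / 26060) (by norm_num) (by norm_num) 7).1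
  have m2 := (log_bound (x := 3449 / 26060) (by norm_num) (by norm_num) 7).2
  have L1 := (log_bound (x := (6515 / 22611) ^ 2) (by norm_num) (by norm_num) 7).1
  have L2 := (log_bound (x := ((6515 / 22611) ^ 2) ^ 2) (by norm_num) (by norm_num) 3).2
  have L3 := (log_bound (x := ((6515 / 22611) ^ 2) ^ 3) (by norm_num) (by norm_num) 2).1
  have L4 := (log_bound (x := ((6515 / 22611) ^ 2) ^ 4) (by norm_num) (by norm_num) 2).2
  have L5 := (log_bound (x := ((6515 / 22611) ^ 2) ^ 5) (by norm_num) (by norm_num) 1).1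
  have L6 := (log_bound (x := ((6515 / 22611) ^ 2) ^ 6) (by norm_num) (by norm_num) 1).2
  have L7 := (log_bound (x := ((6515 / 22611) ^ 2) ^ 7) (by norm_num) (by norm_num) 1).1
  have L8 := (log_bound (x := ((6515 / 22611) ^ 2) ^ 8) (by norm_num) (by norm_num) 1).2
  have L9 := (log_bound (x := ((6515 / 22611) ^ 2) ^ 9) (by norm_num) (by norm_num) 1).1
  rw [show (1 - 3449 / 26060 : ℝ) = 22611 / 26060 by norm_num] at m1 m2
  have hlog : ∀ n : ℕ, Real.log (((6515 / 22611 : ℝ) ^ 2) ^ n) =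
      n * (-(4 * Real.log 2) - 2 * Real.log (22611 / 26060)) := fun n => by rw [Real.log_pow, hl]
  simp only [sum_range_succ, range_zero, sum_empty, H, hlog]
  simp only [sum_range_succ, range_zero, sum_empty] at m1 m2 L1 L2 L3 L4 L5 L6 L7 L8 L9
  generalize Real.log (22611 / 26060) = m at *
  generalize Real.log 2 = l at *
  norm_num at m1 m2 L1 L2 L3 L4 L5 L6 L7 L8 L9 l2a l2b ⊢
  linarith

end Pool.Agent.TH41.SC
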