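import Mathlib
import Pool.Agent.TH41.SC.Num

/-! Kissing numbers. -/

set_option autoImplicit false

open Finset Filter Topology

namespace Pool.Agent.TH41.SC

open Pool.Agent.W259.GP Pool.Agent.W48.KS Pool.Agent.H613R2.LP

theorem kiss_codes {r : ℝ} (h0 : 0 < r) (h1 : r < 1)
    (hE : (1 / 2 : ℝ) * ∑' k, a r k ≤ ∑' k, a r k * ph (cc r (2 * k + 1))) {κ : ℝ}
    (hκ : Φ r < κ * Real.log 2) :
    ∀ᶠ n : ℕ in atTop, ∀ C : Finset (EuclideanSpace ℝ (Fin n)), (∀ c ∈ C, ‖c‖ = 1) →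
      (∀ c ∈ C, ∀ c' ∈ C, c ≠ c' → 1 ≤ dist c c') → (C.card : ℝ) ≤ (2 : ℝ) ^ (κ * n) := by
  obtain ⟨N0, hN0⟩ := codes_main (sd := 1) h0 h1 one_pos (by norm_num at hE ⊢; linarith)
    (ε := κ * Real.log 2 - Φ r) (by linarith)
  filter_upwards [eventually_ge_atTop N0] with n hn C hC1 hC2
  refine (hN0 n hn C hC1 hC2).trans (le_of_eq ?_)
  rw [Real.rpow_def_of_pos two_pos]
  congr 1
  ring

theorem kiss_pos {r : ℝ} (h0 : 0 < r) (h1 : r < 1) {κ : ℝ} (hκ : Φ r < κ * Real.log 2) :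
    0 ≤ κ := by
  have h2 := Φ_pos h0 h1
  have h3 := Real.log_pos one_lt_two
  by_contra h
  push Not at h
  nlinarith

theorem kiss_limsup {r : ℝ} (h0 : 0 < r) (h1 : r < 1)
    (hE : (1 / 2 : ℝ) * ∑' k, a r k ≤ ∑' k, a r k * ph (cc r (2 * k + 1))) :
    limsup (fun d : ℕ => Real.logb 2 (kissing d) / d) atTop ≤ Φ r / Real.log 2 := by
  have h3 := Real.log_pos one_lt_two
  refine le_of_forall_pos_le_add fun ε hε => ?_
  have hκ : Φ r < (Φ r / Real.log 2 + ε) * Real.log 2 := by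
    rw [add_mul, div_mul_cancel₀ _ h3.ne']
    have := mul_pos hε h3
    linarith
  exact (kissing_of_codes (kiss_pos h0 h1 hκ) (kiss_codes h0 h1 hE hκ)).2.2

theorem kiss_num :
    (∀ᶠ d : ℕ in atTop, (kissing d : ℝ) ≤ (2 : ℝ) ^ ((396601 / 1000000 : ℝ) * d)) ∧
    limsup (fun d : ℕ => Real.logb 2 (kissing d) / d) atTop < 396601 / 1000000 := by
  have h3 := Real.log_pos one_lt_two
  refine ⟨(kissing_of_codes (by norm_num)
    (kiss_codes (by norm_num) (by norm_num) num_hyp num_Φ)).2.1, ?_⟩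
  refine (kiss_limsup (by norm_num) (by norm_num) num_hyp).trans_lt ?_
  rw [div_lt_iff₀ h3]
  exact num_Φ

end Pool.Agent.TH41.SC
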