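import Mathlib
import Pool.Agent.TH41.SC.Kiss

/-! The sums in hyperbolic form. -/

set_option autoImplicit false

open Finset Filter Topology

namespace Pool.Agent.TH41.SC

open Pool.Agent.W259.GP Pool.Agent.W48.KS

/-- `∑ n / sinh (n η)` over odd `n` -/
noncomputable def oddSum (η : ℝ) : ℝ := ∑' m : ℕ, (2 * (m : ℝ) + 1) / Real.sinh ((2 * m + 1) * η)

/-- `∑ n / sinh (n η)` over even `n ≥ 2` -/
noncomputable def evenSum (η : ℝ) : ℝ := ∑' m : ℕ, (2 * (m : ℝ) + 2) / Real.sinh ((2 * m + 2) * η)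

/-- the alternating series of the values of `g` at `coth (n η)` -/
noncomputable def Ψ (η : ℝ) : ℝ :=
  ∑' n : ℕ, (-1) ^ n * g (Real.cosh ((n + 1) * η) / Real.sinh ((n + 1) * η))

section
variable {η : ℝ} (hη : 0 < η)
include hη

theorem sq_s : 0 < Real.exp (-η) ^ 2 ∧ Real.exp (-η) ^ 2 < 1 := by
  obtain ⟨e0, e1⟩ := exp_s hη
  exact ⟨by positivity, pow_lt_one₀ e0.le e1 (by norm_num)⟩

theorem odd_term (m : ℕ) : (2 * (m : ℝ) + 1) / Real.sinh ((2 * m + 1) * η) =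
    2 * Real.exp (-η) * ((2 * (m : ℝ) + 1) * (Real.exp (-η) ^ 2) ^ m /
      (1 - (Real.exp (-η) ^ 2) ^ (2 * m + 1))) := by
  have h := div_sinh_s hη (2 * m + 1) (by omega)
  push_cast at h
  rw [h]
  ring

theorem even_term (m : ℕ) : (2 * (m : ℝ) + 2) / Real.sinh ((2 * m + 2) * η) =
    2 * Real.exp (-η) * ((2 * (m : ℝ) + 2) * Real.exp (-η) * (Real.exp (-η) ^ 2) ^ m /
      (1 - (Real.exp (-η) ^ 2) ^ (2 * m + 2))) := by
  have h := div_sinh_s hη (2 * m + 2) (by omega)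
  push_cast at h
  rw [h]
  ring

theorem g_term (n : ℕ) : g (Real.cosh ((n + 1) * η) / Real.sinh ((n + 1) * η)) =
    H ((Real.exp (-η) ^ 2) ^ (n + 1)) := by
  have h := g_coth hη (n + 1) (by omega)
  push_cast at h
  exact h

theorem odd_summable :
    Summable (fun m : ℕ => (2 * (m : ℝ) + 1) / Real.sinh ((2 * m + 1) * η)) := by
  simp only [odd_term hη]
  exact (lam_odd (sq_s hη).1 (sq_s hη).2).1.mul_left _

theorem even_summable :
    Summable (fun m : ℕ => (2 * (m : ℝ) + 2) / Real.sinh ((2 * m + 2) * η)) := by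
  simp only [even_term hη]
  exact (lam_even (exp_s hη).1 (exp_s hη).2).1.mul_left _

theorem Ψ_summable : Summable
    (fun n : ℕ => (-1) ^ n * g (Real.cosh ((n + 1) * η) / Real.sinh ((n + 1) * η))) := by
  simp only [g_term hη]
  exact alt_summable (sq_s hη).1 (sq_s hη).2

theorem oddSum_eq : oddSum η = 2 * Real.exp (-η) * ∑' k, a (Real.exp (-η) ^ 2) k := by
  unfold oddSum
  simp only [odd_term hη]
  rw [tsum_mul_left, (lam_odd (sq_s hη).1 (sq_s hη).2).2]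

theorem evenSum_eq : evenSum η = 2 * Real.exp (-η) *
    ∑' k, a (Real.exp (-η) ^ 2) k * ph (cc (Real.exp (-η) ^ 2) (2 * k + 1)) := by
  unfold evenSum
  simp only [even_term hη]
  rw [tsum_mul_left, (lam_even (exp_s hη).1 (exp_s hη).2).2]

theorem Ψ_eq : Ψ η = Φ (Real.exp (-η) ^ 2) := by
  unfold Ψ Φ
  exact tsum_congr fun n => by rw [g_term hη]

theorem hyp_iff (κ : ℝ) : κ * oddSum η ≤ evenSum η ↔
    κ * ∑' k, a (Real.exp (-η) ^ 2) k ≤
      ∑' k, a (Real.exp (-η) ^ 2) k * ph (cc (Real.exp (-η) ^ 2) (2 * k + 1)) := by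
  rw [oddSum_eq hη, evenSum_eq hη]
  have := Real.exp_pos (-η)
  rw [show κ * (2 * Real.exp (-η) * ∑' k, a (Real.exp (-η) ^ 2) k) =
    2 * Real.exp (-η) * (κ * ∑' k, a (Real.exp (-η) ^ 2) k) by ring]
  exact mul_le_mul_iff_right₀ (by positivity)

theorem Ψ_bounds : 0 < Ψ η ∧ Ψ η < g (Real.cosh η / Real.sinh η) := by
  rw [Ψ_eq hη]
  refine ⟨Φ_pos (sq_s hη).1 (sq_s hη).2, ?_⟩
  have h := g_term hη 0
  simp only [Nat.cast_zero, zero_add, one_mul, pow_one] at h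
  rw [h]
  exact Φ_lt_first (sq_s hη).1 (sq_s hη).2

end

theorem exists_η {κ : ℝ} (h0 : 0 < κ) (h1 : κ < 1) :
    ∃ η : ℝ, 0 < η ∧ κ * oddSum η = evenSum η := by
  obtain ⟨s, hs0, hs1, hs⟩ := exists_s h0 h1
  have hl : 0 < -Real.log s := by
    have := Real.log_neg hs0 hs1
    linarith
  refine ⟨-Real.log s, hl, ?_⟩
  have e : Real.exp (- -Real.log s) = s := by rw [neg_neg, Real.exp_log hs0]
  rw [oddSum_eq hl, evenSum_eq hl, e, ← hs]
  ring

theorem rate_Ψ {θ : ℝ} (hθ : Real.cos θ < 1) {η : ℝ} (hη : 0 < η)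
    (h : Real.cos θ * oddSum η ≤ evenSum η) : rate θ ≤ Ψ η := by
  rw [Ψ_eq hη]
  exact rate_main (sq_s hη).1 (sq_s hη).2 hθ ((hyp_iff hη _).1 h)

theorem kiss_Ψ {η : ℝ} (hη : 0 < η) (h : oddSum η ≤ 2 * evenSum η) :
    limsup (fun d : ℕ => Real.logb 2 (Pool.Agent.H613R2.LP.kissing d) / d) atTop ≤
      Ψ η / Real.log 2 := by
  rw [Ψ_eq hη]
  exact kiss_limsup (sq_s hη).1 (sq_s hη).2 ((hyp_iff hη _).1 (by linarith))

end Pool.Agent.TH41.SC
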